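import Pool.Agent.Q267.E8.Stm2
import Mathlib.Algebra.DualNumber

set_option autoImplicit false

/-!
# Derivatives of the polynomial identities of project E8

`θ = z d/dz`; the identities of `Pool.Agent.Q267.E8.Stm2` hold over every commutative ring, so we evaluate them
over the dual numbers, at `z (1 + ε)`.
-/

namespace Pool.Agent.K6.H87.E8

open Finset Pool.Agent.Q267.CDE Pool.Agent.Q267.MW Pool.Agent.Q267.E8

section defs

variable {S : Type} [CommRing S]

/-- `θ F` -/
def dF (m : ℕ) (z : S) : S :=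
  ∑ k ∈ range (m + 1), (k : S) * ((-1) ^ k * ((m.choose k : ℕ) : S) * (((m + k).choose k : ℕ) : S) * z ^ k)

/-- `θ K` -/
def dK (m : ℕ) (z : S) : S := ∑ k ∈ range (m + 1), (k : S) * (((m.choose k : ℕ) : S) ^ 2 * z ^ k)

/-- `θ K*` -/
def dKr (m : ℕ) (z : S) : S :=
  ∑ k ∈ range (m + 1), ((m - k : ℕ) : S) *
    ((-1) ^ k * ((m.choose k : ℕ) : S) * (((m + k).choose k : ℕ) : S) * z ^ (m - k))

/-- `θ E` -/
def dE (m : ℕ) (w : S) : S :=
  ∑ k ∈ range (m + 1), (k : S) * (((m.choose k : ℕ) : S) * ((k.centralBinom : ℕ) : S) * w ^ k)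

end defs

section dual

variable {S : Type} [CommRing S]

/-- the element `a + b ε` -/
def mk (a b : S) : DualNumber S := TrivSqZeroExt.inl a + TrivSqZeroExt.inr b

theorem fst_mk (a b : S) : (mk a b).fst = a := by simp [mk]

theorem snd_mk (a b : S) : (mk a b).snd = b := by simp [mk]

theorem mk_inj {a b c d : S} (h : mk a b = mk c d) : a = c ∧ b = d :=
  ⟨by simpa [fst_mk] using congrArg TrivSqZeroExt.fst h, by simpa [snd_mk] using congrArg TrivSqZeroExt.snd h⟩

theorem mk_mul (a b c d : S) : mk a b * mk c d = mk (a * c) (a * d + b * c) := by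
  apply TrivSqZeroExt.ext <;> simp [mk]

theorem mk_add (a b c d : S) : mk a b + mk c d = mk (a + c) (b + d) := by
  apply TrivSqZeroExt.ext <;> simp [mk]

theorem mk_sub (a b c d : S) : mk a b - mk c d = mk (a - c) (b - d) := by
  apply TrivSqZeroExt.ext <;> simp [mk]

theorem mk_neg (a b : S) : -mk a b = mk (-a) (-b) := by
  apply TrivSqZeroExt.ext <;> simp [mk]

theorem mk_one : (1 : DualNumber S) = mk 1 0 := by
  apply TrivSqZeroExt.ext <;> simp [mk]

theorem mk_natCast (n : ℕ) : (n : DualNumber S) = mk (n : S) 0 := by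
  apply TrivSqZeroExt.ext <;> simp [mk]

theorem mk_pow (a b : S) (k : ℕ) : mk a (a * b) ^ k = mk (a ^ k) ((k : S) * (a ^ k * b)) := by
  induction k with
  | zero => simp [mk_one]
  | succ k ih =>
    rw [pow_succ, ih, mk_mul]
    congr 1
    all_goals
      push_cast
      ring

theorem mk_sum {ι : Type} (s : Finset ι) (f g : ι → S) :
    ∑ i ∈ s, mk (f i) (g i) = mk (∑ i ∈ s, f i) (∑ i ∈ s, g i) := by
  classical
  induction s using Finset.induction_on with
  | empty =>
    simp only [sum_empty]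
    apply TrivSqZeroExt.ext <;> simp [mk]
  | insert a s ha ih => rw [sum_insert ha, sum_insert ha, sum_insert ha, ih, mk_add]

theorem mk_nat_mul (n : ℕ) (a b : S) : (n : DualNumber S) * mk a b = mk (n * a) (n * b) := by
  rw [mk_natCast, mk_mul]
  congr 1
  ring

theorem neg_one_pow_mk (k : ℕ) (a b : S) : (-1 : DualNumber S) ^ k * mk a b = mk ((-1) ^ k * a) ((-1) ^ k * b) := by
  have h : (-1 : DualNumber S) ^ k = mk ((-1) ^ k) 0 := by
    induction k with
    | zero => simp [mk_one]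
    | succ k ih =>
      rw [pow_succ, ih, mk_one, mk_neg, mk_mul]
      congr 1
      · ring
      · ring
  rw [h, mk_mul]
  congr 1
  ring

theorem Ff_mk (m : ℕ) (z t : S) : Ff m (mk z (z * t)) = mk (Ff m z) (t * dF m z) := by
  unfold Ff dF
  rw [mul_sum, ← mk_sum]
  refine sum_congr rfl fun k _ => ?_
  rw [mk_pow, mul_assoc, mul_assoc, mk_nat_mul, mk_nat_mul, neg_one_pow_mk]
  congr 1
  · ring
  · ring

theorem Kf_mk (m : ℕ) (z t : S) : Kf m (mk z (z * t)) = mk (Kf m z) (t * dK m z) := by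
  unfold Kf dK
  rw [mul_sum, ← mk_sum]
  refine sum_congr rfl fun k _ => ?_
  rw [mk_pow, sq, mul_assoc, mk_nat_mul, mk_nat_mul]
  congr 1
  · ring
  · ring

theorem Kr_mk (m : ℕ) (z t : S) : Kr m (mk z (z * t)) = mk (Kr m z) (t * dKr m z) := by
  unfold Kr dKr
  rw [mul_sum, ← mk_sum]
  refine sum_congr rfl fun k _ => ?_
  rw [mk_pow, mul_assoc, mul_assoc, mk_nat_mul, mk_nat_mul, neg_one_pow_mk]
  congr 1
  · ring
  · ring

theorem Ef_mk (m : ℕ) (z t : S) : Ef m (mk z (z * t)) = mk (Ef m z) (t * dE m z) := by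
  unfold Ef dE
  rw [mul_sum, ← mk_sum]
  refine sum_congr rfl fun k _ => ?_
  rw [mk_pow, mul_assoc, mk_nat_mul, mk_nat_mul]
  congr 1 <;> ring

/-- derivative of K1 -/
theorem dk1 (hK1 : S_K1) (m : ℕ) (z v : S) (hv : (1 - z) * v = 1) :
    dK m z = -((m : S) * z * v) * Kf m z + (1 - z) ^ m * (v * dF m (-(z * v))) := by
  have e1 : (1 : DualNumber S) - mk z (z * 1) = mk (1 - z) ((1 - z) * -(z * v)) := by
    rw [mk_one, mk_sub]
    congr 1
    linear_combination z * hv
  have h := hK1 (DualNumber S) m (mk z (z * 1)) (mk v (v * (z * v))) (by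
    rw [e1, mk_mul, mk_one]
    congr 1
    ring)
  have e2 : -(mk z (z * 1) * mk v (v * (z * v))) = mk (-(z * v)) (-(z * v) * v) := by
    rw [mk_mul, mk_neg]
    congr 1
    linear_combination (z * v) * hv
  rw [e1, e2, mk_pow, Kf_mk, Ff_mk, mk_mul] at h
  have h2 := (mk_inj h).2
  have h1 := (mk_inj h).1
  linear_combination h2 + (m : S) * z * v * h1

/-- derivative of K2 -/
theorem dk2 (hK2 : S_K2) (m : ℕ) (z v : S) (hv : (1 - z) * v = 1) :
    -(z * v) * dK m (1 - z) = (-1) ^ m * dKr m z := by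
  have e1 : (1 : DualNumber S) - mk z (z * 1) = mk (1 - z) ((1 - z) * -(z * v)) := by
    rw [mk_one, mk_sub]
    congr 1
    linear_combination z * hv
  have h := hK2 (DualNumber S) m (mk z (z * 1))
  rw [e1, Kf_mk, Kr_mk, neg_one_pow_mk] at h
  linear_combination (mk_inj h).2

/-- derivative of LD; `s = 1/(1+x)` -/
theorem dld (hLD : S_LD) (m : ℕ) (x s : S) (hs : (1 + x) * s = 1) :
    2 * dK m (x ^ 2) = 2 * (m : S) * x * s * Kf m (x ^ 2) +
      (1 + x) ^ (2 * m) * ((1 - 2 * x * s) * dE m (-(x * s ^ 2))) := by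
  have e1 : (1 : DualNumber S) + mk x (x * 1) = mk (1 + x) ((1 + x) * (x * s)) := by
    rw [mk_one, mk_add]
    congr 1
    linear_combination -x * hs
  have h := hLD (DualNumber S) m (mk x (x * 1)) (mk (s ^ 2) (s ^ 2 * (-2 * x * s))) (by
    rw [e1, mk_pow, mk_mul, mk_one]
    congr 1
    · linear_combination ((1 + x) * s + 1) * hs
    · push_cast
      ring)
  have e2 : mk x (x * 1) ^ 2 = mk (x ^ 2) (x ^ 2 * 2) := by
    rw [mk_pow]
    congr 1
    push_cast
    ring
  have e3 : -(mk x (x * 1) * mk (s ^ 2) (s ^ 2 * (-2 * x * s))) =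
      mk (-(x * s ^ 2)) (-(x * s ^ 2) * (1 - 2 * x * s)) := by
    rw [mk_mul, mk_neg]
    congr 1
    ring
  rw [e1, e2, e3, mk_pow, Kf_mk, Ef_mk, mk_mul] at h
  have h1 := (mk_inj h).1
  have h2 := (mk_inj h).2
  push_cast at h2
  linear_combination h2 - 2 * (m : S) * x * s * h1

/-- derivative of EK -/
theorem dek (hEK : S_EK) (p m : ℕ) [Fact p.Prime] [Algebra (R p) S] (z w : S) (hp : p = 2 * m + 1)
    (hw : -4 * w = z) : 2 * dE m w = dF m z + dK m z := by
  have h := hEK p m (DualNumber S) (mk z (z * 1)) (mk w (w * 1)) hp (by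
    have h4 : (-4 : DualNumber S) = mk (-4) 0 := by
      have h4' := mk_natCast (S := S) 4
      have : (-4 : DualNumber S) = -((4 : ℕ) : DualNumber S) := by norm_num
      rw [this, h4', mk_neg]
      congr 1
      ring
    rw [h4, mk_mul, ← hw]
    congr 1
    ring)
  have h2 : (2 : DualNumber S) = mk 2 0 := by
    have h4' := mk_natCast (S := S) 2
    rw [← Nat.cast_ofNat (R := DualNumber S) (n := 2), h4']
    congr 1
  rw [Ef_mk, Ff_mk, Kf_mk, h2, mk_mul, mk_add] at h
  linear_combination (mk_inj h).2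

/-- derivative of II; `v = 1/(1-z)` -/
theorem dii (hII : S_II) (p m : ℕ) [Fact p.Prime] [Algebra (R p) S] (z v : S) (hp : p = 2 * m + 1) (h3 : 3 < p)
    (hv : (1 - z) * v = 1) :
    (p : S) * (z ^ p - (1 - z) ^ p * (z * v)) * Ff m z + (1 + z ^ p + (1 - z) ^ p) * dF m z =
      -2 * (p : S) * z ^ p * Kf m z + 2 * (1 - z ^ p) * dK m z + 2 * (p : S) * z ^ p * Kr m z +
        2 * z ^ p * dKr m z := by
  have e1 : (1 : DualNumber S) - mk z (z * 1) = mk (1 - z) ((1 - z) * -(z * v)) := by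
    rw [mk_one, mk_sub]
    congr 1
    linear_combination z * hv
  have h := hII p m (DualNumber S) (mk z (z * 1)) hp h3
  have h2 : (2 : DualNumber S) = mk 2 0 := by
    have h4' := mk_natCast (S := S) 2
    rw [← Nat.cast_ofNat (R := DualNumber S) (n := 2), h4']
    congr 1
  rw [e1, Ff_mk, Kf_mk, Kr_mk, mk_pow, mk_pow, h2, mk_one] at h
  simp only [mk_mul, mk_add, mk_sub] at h
  linear_combination (mk_inj h).2

end dual

end Pool.Agent.K6.H87.E8
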