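import Pool.Agent.K6.H87.E8.Main
import Pool.Agent.Q121.E8.RP

set_option autoImplicit false

/-!
# The supercongruence of MP_a989c0_nt (Q2): the final statements for `p > 3`
-/

namespace Pool.Agent.K6.H87.E8

open Finset Pool.Agent.Q267.CDE Pool.Agent.Q267.MW Pool.Agent.Q267.E8

theorem cong1 (p : ℕ) [Fact p.Prime] (h8 : p % 8 = 1) : Cong p 2 (S1 p) 0 := by
  have h2 := (Fact.out : p.Prime).two_le
  refine (Pool.Agent.Q10.E8.rb p (S1 p) 0 0 (sum1 p (p / 8) (by omega) (by omega))).1 ?_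
  refine ⟨0, 1, ?_, by simp, by simp⟩
  intro h
  have := Nat.le_of_dvd (by norm_num) h
  omega

theorem cong3 (p : ℕ) [hp : Fact p.Prime] (h8 : p % 8 = 3) (h3 : 3 < p) (x y : ℤ)
    (hxy : (p : ℤ) = x ^ 2 + 2 * y ^ 2) (hx : (4 : ℤ) ∣ x - 1) :
    Cong p 2 (S1 p) (2 * ((x : ℚ) + (p : ℚ) / x)) := by
  obtain ⟨q, hq⟩ : ∃ q, p = 8 * q + 3 := ⟨p / 8, by omega⟩
  have hq0 : 0 < q := by omega
  have hnd := ndvd p h3 x y hxy
  obtain ⟨v, hv, hS⟩ := sum3 p q hq0 hq
  have hc3 := case3 wa wc p q hq0 hq x y hxy hx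
  rw [← hv] at hc3
  have h2x : IsUnit (2 * (x : R p)) := by
    apply isUnit_of_red
    rw [map_mul, map_ofNat, red_int]
    intro h
    apply hnd
    rw [← ZMod.intCast_zmod_eq_zero_iff_dvd]
    push_cast
    exact h
  have hxu : IsUnit (x : R p) := isUnit_of_mul_isUnit_right h2x
  have hvu : IsUnit v := by
    have h5 : red p v = 2 * x := by
      have h6 := congrArg (red p) hc3
      have hpz : red p (p : R p) = 0 := by rw [red_nat]; exact ZMod.natCast_self p
      rw [map_mul, map_sub, map_mul, map_ofNat, red_int, hpz] at h6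
      have h7 : (2 * (x : ZMod p)) ≠ 0 := by
        intro h
        apply hnd
        rw [← ZMod.intCast_zmod_eq_zero_iff_dvd]
        push_cast
        exact h
      rcases mul_eq_zero.1 h6 with h8 | h8
      · exact (sub_eq_zero.1 h8).symm
      · exact absurd h8 h7
    apply isUnit_of_red
    rw [h5]
    intro h
    apply hnd
    rw [← ZMod.intCast_zmod_eq_zero_iff_dvd]
    push_cast
    exact h
  obtain ⟨xi, hxi⟩ := hxu.exists_right_inv
  have hP := p_sq p
  have hpv : (p : R p) * v = 2 * p * x := by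
    apply h2x.mul_left_cancel
    linear_combination -(p : R p) * hc3 - hP
  have hcx : (2 * (x + p * xi) : R p) * x = 2 * (x : R p) ^ 2 + 2 * p := by
    linear_combination 2 * p * hxi
  have hcv : (2 * (x + p * xi) : R p) * v = v ^ 2 + 5 * p := by
    apply h2x.mul_left_cancel
    linear_combination (2 * v) * hcx + v * hc3 + 5 * hpv
  have hred := hS (2 * (x + p * xi)) hvu hcv
  refine (Pool.Agent.Q10.E8.rb p (S1 p) _ _ hred).1 ?_
  have hx0 : x ≠ 0 := by
    rintro rfl
    exact hnd (by simp)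
  refine ⟨(2 * x ^ 2 + 2 * p) * x, (x ^ 2).natAbs, ?_, ?_, ?_⟩
  · intro h
    apply hnd
    have h1 : (p : ℤ) ∣ x ^ 2 := Int.natCast_dvd.2 h
    have h4 : Prime (p : ℤ) := Nat.prime_iff_prime_int.mp hp.out
    exact Dvd.dvd.mul_left (h4.dvd_of_dvd_pow h1) 2
  · have h1 : (((x ^ 2).natAbs : ℕ) : ℚ) = (x : ℚ) ^ 2 := by
      rw [Nat.cast_natAbs, abs_of_nonneg (sq_nonneg x), Int.cast_pow]
    rw [h1]
    have h5 : (x : ℚ) ≠ 0 := by exact_mod_cast hx0
    push_cast
    field_simp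
  · have h1 : (((x ^ 2).natAbs : ℕ) : R p) = (x : R p) ^ 2 := by
      rw [Nat.cast_natAbs, abs_of_nonneg (sq_nonneg x), Int.cast_pow]
    rw [h1]
    push_cast
    linear_combination -(x : R p) * hcx

end Pool.Agent.K6.H87.E8
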