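import Mathlib

set_option autoImplicit false

/-!
# Algebraic identities modulo `P² = 0`, with `r² = 2`
-/

namespace Pool.Agent.K6.H87.E8

variable {S : Type} [CommRing S]

theorem cancelr (r P c Y : S) (hP : P ^ 2 = 0) (hr : r ^ 2 = 2) (h2 : IsUnit (2 : S)) (h : (4 * r + P * c) * Y = 0) :
    Y = 0 := by
  have h1 : P * Y = 0 := by
    apply (h2.pow 3).mul_left_cancel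
    linear_combination (r * P) * h - 4 * P * Y * hr - r * c * Y * hP
  apply (h2.pow 3).mul_left_cancel
  linear_combination r * h - r * c * h1 - 4 * Y * hr

/-- the relations for `p ≡ 3` modulo `8` -/
theorem key3 (r P B v a b al be ka k t x zp : S) (hP : P ^ 2 = 0) (hr : r ^ 2 = 2) (h2 : IsUnit (2 : S))
    (hx : x = (1 + r) + P * v) (hzp : zp = -(2 * (1 + 2 * P * B) * x)) (hk : k = -((1 + r) * x) * a)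
    (hka : ka = (1 - P) * (1 + r) * k - (1 + r) ^ 3 * x * al) (ht : t = (1 + P * B) * (b + k))
    (hb : b = -(1 + r) ^ 2 * a)
    (hd : 2 * P * (zp - 2 * (1 + r) * x ^ 2) * b + 2 * (1 + zp + x ^ 2) * be =
      -4 * P * zp * k + 4 * (1 - zp) * ka + 2 * P * zp * t + zp * ((1 - P) * r * t - 2 * (1 + P * B) * (be + ka)))
    (hkb : P * ka = P * be) : be = (1 + r) ^ 6 * al + 2 * (1 + r) ^ 4 * a := by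
  subst ht hka hk hzp hx hb
  have hY : P * (be - (1 + r) ^ 6 * al - 2 * (1 + r) ^ 4 * a) = 0 := by
    apply (h2.pow 4).mul_left_cancel
    linear_combination (-2*r*P) * hd + (16*r ^ 6*P*B ^ 2*al + 56*r ^ 6*B*al + 8*r ^ 6*a + 32*r ^ 5*P ^ 2*B ^
      2*v*al + 80*r ^ 5*P*B ^ 2*al + 112*r ^ 5*P*B*v*al - 32*r ^ 5*P*B*a + 16*r ^ 5*P*v*a + 32*r ^ 5*B*a +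
      280*r ^ 5*B*al + 48*r ^ 5*v*al + 24*r ^ 5*a + 16*r ^ 4*P ^ 3*B ^ 2*v ^ 2*al - 8*r ^ 4*P ^ 3*B ^ 2*v*a
      + 8*r ^ 4*P ^ 2*B ^ 2*v*a + 128*r ^ 4*P ^ 2*B ^ 2*v*al - 48*r ^ 4*P ^ 2*B ^ 2*a + 56*r ^ 4*P ^ 2*B*v ^
      2*al - 76*r ^ 4*P ^ 2*B*v*a + 8*r ^ 4*P ^ 2*v ^ 2*a + 16*r ^ 4*P*B ^ 2*a + 160*r ^ 4*P*B ^ 2*al + 76*r
      ^ 4*P*B*v*a + 448*r ^ 4*P*B*v*al - 152*r ^ 4*P*B*a + 24*r ^ 4*P*v ^ 2*al + 28*r ^ 4*P*v*a + 152*r ^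
      4*B*a + 560*r ^ 4*B*al + 36*r ^ 4*v*a + 200*r ^ 4*v*al + 8*r ^ 4*a - 8*r ^ 3*P ^ 4*B ^ 2*v ^ 2*a + 8*r
      ^ 3*P ^ 3*B ^ 2*v ^ 2*a + 48*r ^ 3*P ^ 3*B ^ 2*v ^ 2*al - 96*r ^ 3*P ^ 3*B ^ 2*v*a - 44*r ^ 3*P ^
      3*B*v ^ 2*a + 48*r ^ 3*P ^ 2*B ^ 2*v*a + 192*r ^ 3*P ^ 2*B ^ 2*v*al - 144*r ^ 3*P ^ 2*B ^ 2*a + 44*r ^
      3*P ^ 2*B*v ^ 2*a + 168*r ^ 3*P ^ 2*B*v ^ 2*al - 256*r ^ 3*P ^ 2*B*v*a + 4*r ^ 3*P ^ 2*v ^ 2*a + 48*r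
      ^ 3*P*B ^ 2*a + 160*r ^ 3*P*B ^ 2*al + 264*r ^ 3*P*B*v*a + 672*r ^ 3*P*B*v*al - 264*r ^ 3*P*B*a + 20*r
      ^ 3*P*v ^ 2*a + 72*r ^ 3*P*v ^ 2*al - 16*r ^ 3*P*v*a + 264*r ^ 3*B*a + 560*r ^ 3*B*al + 128*r ^ 3*v*a
      + 312*r ^ 3*v*al - 40*r ^ 3*a - 40*r ^ 2*P ^ 4*B ^ 2*v ^ 2*a + 24*r ^ 2*P ^ 3*B ^ 2*v ^ 2*a + 48*r ^
      2*P ^ 3*B ^ 2*v ^ 2*al - 168*r ^ 2*P ^ 3*B ^ 2*v*a - 92*r ^ 2*P ^ 3*B*v ^ 2*a + 72*r ^ 2*P ^ 2*B ^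
      2*v*a + 128*r ^ 2*P ^ 2*B ^ 2*v*al - 144*r ^ 2*P ^ 2*B ^ 2*a + 100*r ^ 2*P ^ 2*B*v ^ 2*a + 168*r ^ 2*P
      ^ 2*B*v ^ 2*al - 284*r ^ 2*P ^ 2*B*v*a - 12*r ^ 2*P ^ 2*v ^ 2*a + 48*r ^ 2*P*B ^ 2*a + 80*r ^ 2*P*B ^
      2*al - 16*r ^ 2*P*B ^ 2*be + 300*r ^ 2*P*B*v*a + 448*r ^ 2*P*B*v*al - 200*r ^ 2*P*B*a + 44*r ^ 2*P*v ^
      2*a + 72*r ^ 2*P*v ^ 2*al - 52*r ^ 2*P*v*a + 200*r ^ 2*B*a + 280*r ^ 2*B*al - 40*r ^ 2*B*be + 148*r ^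
      2*v*a + 216*r ^ 2*v*al + 8*r ^ 2*v*be - 48*r ^ 2*a - 32*r*P ^ 4*B ^ 2*v ^ 2*a + 16*r*P ^ 3*B ^ 2*v ^
      2*a + 16*r*P ^ 3*B ^ 2*v ^ 2*al - 80*r*P ^ 3*B ^ 2*v*a - 48*r*P ^ 3*B*v ^ 2*a + 32*r*P ^ 2*B ^ 2*v*a +
      32*r*P ^ 2*B ^ 2*v*al - 16*r*P ^ 2*B ^ 2*v*be - 48*r*P ^ 2*B ^ 2*a + 56*r*P ^ 2*B*v ^ 2*a + 56*r*P ^
      2*B*v ^ 2*al - 104*r*P ^ 2*B*v*a - 8*r*P ^ 2*v ^ 2*a + 16*r*P*B ^ 2*a + 16*r*P*B ^ 2*al - 16*r*P*B ^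
      2*be + 112*r*P*B*v*a + 112*r*P*B*v*al - 40*r*P*B*v*be - 56*r*P*B*a + 24*r*P*v ^ 2*a + 24*r*P*v ^ 2*al
      + 4*r*P*v ^ 2*be - 24*r*P*v*a + 56*r*B*a + 56*r*B*al - 40*r*B*be + 56*r*v*a + 56*r*v*al - 8*r*v*be -
      16*r*a) * hP + (8*r ^ 4*P*al + 16*r ^ 3*P*a + 32*r ^ 3*P*al + 48*r ^ 2*P*a + 48*r ^ 2*P*al + 48*r*P*a
      + 32*r*P*al + 4*r*P*be + 16*P*a + 8*P*al - 8*P*be) * hr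
  have ha : P * (4 * al + r * a) = 0 := by
    linear_combination (-r ^ 6 + 5*r ^ 5 - 10*r ^ 4 + 10*r ^ 3 - 5*r ^ 2 + r) * hkb + (-r ^ 6 + 5*r ^ 5 - 10*r ^
      4 + 10*r ^ 3 - 5*r ^ 2 + r) * hY + (-r ^ 9*v*al + r ^ 9*a + r ^ 8*P*v*a - r ^ 8*v*a + 2*r ^ 8*v*al -
      2*r ^ 8*a - 3*r ^ 7*P*v*a + 3*r ^ 7*v*a + 2*r ^ 7*v*al - 2*r ^ 7*a + r ^ 6*P*v*a - r ^ 6*v*a - 6*r ^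
      6*v*al + 6*r ^ 6*a + 5*r ^ 5*P*v*a - 5*r ^ 5*v*a - 5*r ^ 4*P*v*a + 5*r ^ 4*v*a + 6*r ^ 4*v*al - 6*r ^
      4*a - r ^ 3*P*v*a + r ^ 3*v*a - 2*r ^ 3*v*al + 2*r ^ 3*a + 3*r ^ 2*P*v*a - 3*r ^ 2*v*a - 2*r ^ 2*v*al
      + 2*r ^ 2*a - r*P*v*a + r*v*a + r*v*al - r*a) * hP + (-r ^ 10*P*al - r ^ 9*P*al - 2*r ^ 8*P*a + 2*r ^
      8*P*al + r ^ 7*P*a + 4*r ^ 7*P*al + 6*r ^ 6*P*a - 2*r ^ 6*P*al - 4*r ^ 5*P*a - 6*r ^ 5*P*al - 6*r ^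
      4*P*a + 4*r ^ 3*P*a + 4*r ^ 3*P*al + 2*r ^ 2*P*a - r ^ 2*P*al - 2*r*P*a - r*P*al - 2*P*al) * hr
  have hf : be - (1 + r) ^ 6 * al - 2 * (1 + r) ^ 4 * a = 0 := by
    apply cancelr r P (20*r*B - 4*r*v + 20*B + 4*v) _ hP hr h2
    linear_combination (-1) * hd + (-642*r*B + 106*r*v - 908*B + 150*v) * ha + (8*r ^ 5*B ^ 2*al + 16*r ^ 4*P*B
      ^ 2*v*al + 40*r ^ 4*B ^ 2*al + 56*r ^ 4*B*v*al - 16*r ^ 4*B*a + 8*r ^ 4*v*a + 8*r ^ 3*P ^ 2*B ^ 2*v ^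
      2*al - 4*r ^ 3*P ^ 2*B ^ 2*v*a + 4*r ^ 3*P*B ^ 2*v*a + 64*r ^ 3*P*B ^ 2*v*al - 24*r ^ 3*P*B ^ 2*a +
      28*r ^ 3*P*B*v ^ 2*al - 38*r ^ 3*P*B*v*a + 4*r ^ 3*P*v ^ 2*a + 8*r ^ 3*B ^ 2*a + 80*r ^ 3*B ^ 2*al +
      38*r ^ 3*B*v*a + 224*r ^ 3*B*v*al - 76*r ^ 3*B*a + 12*r ^ 3*v ^ 2*al + 14*r ^ 3*v*a - 4*r ^ 2*P ^ 3*B
      ^ 2*v ^ 2*a + 4*r ^ 2*P ^ 2*B ^ 2*v ^ 2*a + 24*r ^ 2*P ^ 2*B ^ 2*v ^ 2*al - 48*r ^ 2*P ^ 2*B ^ 2*v*a -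
      22*r ^ 2*P ^ 2*B*v ^ 2*a + 24*r ^ 2*P*B ^ 2*v*a + 96*r ^ 2*P*B ^ 2*v*al - 72*r ^ 2*P*B ^ 2*a + 22*r ^
      2*P*B*v ^ 2*a + 84*r ^ 2*P*B*v ^ 2*al - 128*r ^ 2*P*B*v*a + 2*r ^ 2*P*v ^ 2*a + 24*r ^ 2*B ^ 2*a +
      80*r ^ 2*B ^ 2*al + 132*r ^ 2*B*v*a + 336*r ^ 2*B*v*al - 132*r ^ 2*B*a + 10*r ^ 2*v ^ 2*a + 36*r ^ 2*v
      ^ 2*al - 8*r ^ 2*v*a - 20*r*P ^ 3*B ^ 2*v ^ 2*a + 12*r*P ^ 2*B ^ 2*v ^ 2*a + 24*r*P ^ 2*B ^ 2*v ^ 2*al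
      - 84*r*P ^ 2*B ^ 2*v*a - 46*r*P ^ 2*B*v ^ 2*a + 36*r*P*B ^ 2*v*a + 64*r*P*B ^ 2*v*al - 72*r*P*B ^ 2*a
      + 50*r*P*B*v ^ 2*a + 84*r*P*B*v ^ 2*al - 142*r*P*B*v*a - 6*r*P*v ^ 2*a + 24*r*B ^ 2*a + 40*r*B ^ 2*al
      - 8*r*B ^ 2*be + 150*r*B*v*a + 224*r*B*v*al - 100*r*B*a + 22*r*v ^ 2*a + 36*r*v ^ 2*al - 26*r*v*a -
      16*P ^ 3*B ^ 2*v ^ 2*a + 8*P ^ 2*B ^ 2*v ^ 2*a + 8*P ^ 2*B ^ 2*v ^ 2*al - 40*P ^ 2*B ^ 2*v*a - 24*P ^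
      2*B*v ^ 2*a + 16*P*B ^ 2*v*a + 16*P*B ^ 2*v*al - 8*P*B ^ 2*v*be - 24*P*B ^ 2*a + 28*P*B*v ^ 2*a +
      28*P*B*v ^ 2*al - 52*P*B*v*a - 4*P*v ^ 2*a + 8*B ^ 2*a + 8*B ^ 2*al - 8*B ^ 2*be + 56*B*v*a +
      56*B*v*al - 20*B*v*be - 28*B*a + 12*v ^ 2*a + 12*v ^ 2*al + 2*v ^ 2*be - 12*v*a) * hP + (-20*r ^
      5*P*B*al + 4*r ^ 5*P*v*al - 4*r ^ 5*al - 140*r ^ 4*P*B*al + 20*r ^ 4*P*v*al - 24*r ^ 4*al - 40*r ^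
      3*P*B*a - 432*r ^ 3*P*B*al + 8*r ^ 3*P*v*a + 44*r ^ 3*P*v*al + 4*r ^ 3*P*a - 8*r ^ 3*a - 56*r ^ 3*al -
      184*r ^ 2*P*B*a - 840*r ^ 2*P*B*al + 24*r ^ 2*P*v*a + 84*r ^ 2*P*v*al + 12*r ^ 2*P*a - 24*r ^ 2*a -
      64*r ^ 2*al - 404*r*P*B*a - 1284*r*P*B*al + 50*r*P*v*a + 168*r*P*v*al + 12*r*P*a - 24*r*a - 36*r*al +
      6*P*B*a - 1820*P*B*al - 10*P*v*a + 288*P*v*al + 4*P*a - 8*a - 8*al + 2*be) * hr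
  linear_combination hf

/-- the first relation for `p ≡ 1` modulo `8` -/
theorem key1a (r P B v a b k t x zp : S) (hP : P ^ 2 = 0) (hr : r ^ 2 = 2) (h2 : IsUnit (2 : S))
    (hx : x = (1 - r) + P * v) (hzp : zp = -(2 * (1 + 2 * P * B) * x)) (hk : k = -((1 + r) * x) * a)
    (ht : t = (1 + P * B) * (b + k))
    (h1 : (1 + zp + x ^ 2) * b = 2 * (1 - zp) * k + zp * t) : b = a := by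
  subst ht hk hzp hx
  have hf : a - b = 0 := by
    apply cancelr r P (-4*B - 4*v) _ hP hr h2
    linear_combination (-2*r - 2) * h1 + (-8*r ^ 4*B ^ 2*a + 16*r ^ 3*P*B ^ 2*v*a - 8*r ^ 3*B*v*a - 8*r ^ 2*P ^
      2*B ^ 2*v ^ 2*a + 16*r ^ 2*P*B ^ 2*v*a + 4*r ^ 2*P*B*v ^ 2*a + 16*r ^ 2*B ^ 2*a - 8*r ^ 2*B ^ 2*b -
      8*r ^ 2*B*v*a + 4*r ^ 2*v ^ 2*a - 16*r*P ^ 2*B ^ 2*v ^ 2*a - 16*r*P*B ^ 2*v*a + 8*r*P*B ^ 2*v*b +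
      8*r*P*B*v ^ 2*a + 8*r*B*v*a + 4*r*B*v*b + 8*r*v ^ 2*a + 2*r*v ^ 2*b - 8*P ^ 2*B ^ 2*v ^ 2*a - 16*P*B ^
      2*v*a + 8*P*B ^ 2*v*b + 4*P*B*v ^ 2*a - 8*B ^ 2*a + 8*B ^ 2*b + 8*B*v*a + 4*B*v*b + 4*v ^ 2*a + 2*v ^
      2*b) * hP + (4*r ^ 2*P*B*a + 4*r ^ 2*a - 8*r*P*v*a - 4*r*a + 2*r*b - 4*P*B*b - 4*P*v*a - 4*P*v*b - 4*a
      - 2*b) * hr
  linear_combination -hf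

/-- the second relation for `p ≡ 1` modulo `8` -/
theorem key1 (r P B v a al be ka k t x zp : S) (hP : P ^ 2 = 0) (hr : r ^ 2 = 2) (h2 : IsUnit (2 : S))
    (hx : x = (1 - r) + P * v) (hzp : zp = -(2 * (1 + 2 * P * B) * x)) (hk : k = -((1 + r) * x) * a)
    (hka : ka = (1 - P) * (1 + r) * k - (1 + r) ^ 3 * x * al) (ht : t = (1 + P * B) * (a + k))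
    (hd : 2 * P * (zp - 2 * (1 + r) * x ^ 2) * a + 2 * (1 + zp + x ^ 2) * be =
      -4 * P * zp * k + 4 * (1 - zp) * ka + 2 * P * zp * t + zp * ((1 - P) * r * t - 2 * (1 + P * B) * (be + ka)))
    (hkb : P * ka = P * be) : al + be = 0 := by
  subst ht hka hk hzp hx
  have hZ : P * (al + be) = 0 := by
    apply (h2.pow 4).mul_left_cancel
    linear_combination (2*r*P) * hd + (-16*r ^ 6*P*B ^ 2*al - 56*r ^ 6*B*al + 32*r ^ 5*P ^ 2*B ^ 2*v*al + 8*r ^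
      5*P ^ 2*B ^ 2*a - 8*r ^ 5*P*B ^ 2*a - 16*r ^ 5*P*B ^ 2*al + 112*r ^ 5*P*B*v*al + 44*r ^ 5*P*B*a - 44*r
      ^ 5*B*a - 56*r ^ 5*B*al + 48*r ^ 5*v*al + 20*r ^ 5*a - 16*r ^ 4*P ^ 3*B ^ 2*v ^ 2*al - 16*r ^ 4*P ^
      3*B ^ 2*v*a + 16*r ^ 4*P ^ 2*B ^ 2*v*a + 64*r ^ 4*P ^ 2*B ^ 2*v*al + 24*r ^ 4*P ^ 2*B ^ 2*a - 56*r ^
      4*P ^ 2*B*v ^ 2*al - 88*r ^ 4*P ^ 2*B*v*a - 8*r ^ 4*P*B ^ 2*a + 32*r ^ 4*P*B ^ 2*al + 88*r ^ 4*P*B*v*a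
      + 224*r ^ 4*P*B*v*al + 4*r ^ 4*P*B*a - 24*r ^ 4*P*v ^ 2*al - 40*r ^ 4*P*v*a - 12*r ^ 4*B*a + 112*r ^
      4*B*al + 40*r ^ 4*v*a + 88*r ^ 4*v*al - 4*r ^ 4*a + 8*r ^ 3*P ^ 4*B ^ 2*v ^ 2*a - 8*r ^ 3*P ^ 3*B ^
      2*v ^ 2*a - 48*r ^ 3*P ^ 3*B ^ 2*v ^ 2*al - 64*r ^ 3*P ^ 3*B ^ 2*v*a + 44*r ^ 3*P ^ 3*B*v ^ 2*a + 32*r
      ^ 3*P ^ 2*B ^ 2*v*a - 48*r ^ 3*P ^ 2*B ^ 2*a - 44*r ^ 3*P ^ 2*B*v ^ 2*a - 168*r ^ 3*P ^ 2*B*v ^ 2*al -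
      96*r ^ 3*P ^ 2*B*v*a + 20*r ^ 3*P ^ 2*v ^ 2*a + 32*r ^ 3*P*B ^ 2*a + 32*r ^ 3*P*B ^ 2*al + 112*r ^
      3*P*B*v*a - 104*r ^ 3*P*B*a - 20*r ^ 3*P*v ^ 2*a - 72*r ^ 3*P*v ^ 2*al - 40*r ^ 3*P*v*a + 112*r ^
      3*B*a + 112*r ^ 3*B*al + 40*r ^ 3*v*a - 24*r ^ 3*v*al - 56*r ^ 3*a + 40*r ^ 2*P ^ 4*B ^ 2*v ^ 2*a -
      24*r ^ 2*P ^ 3*B ^ 2*v ^ 2*a - 48*r ^ 2*P ^ 3*B ^ 2*v ^ 2*al + 24*r ^ 2*P ^ 3*B ^ 2*v*a + 92*r ^ 2*P ^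
      3*B*v ^ 2*a - 24*r ^ 2*P ^ 2*B ^ 2*v*a - 64*r ^ 2*P ^ 2*B ^ 2*v*al - 100*r ^ 2*P ^ 2*B*v ^ 2*a - 168*r
      ^ 2*P ^ 2*B*v ^ 2*al + 100*r ^ 2*P ^ 2*B*v*a + 44*r ^ 2*P ^ 2*v ^ 2*a - 16*r ^ 2*P*B ^ 2*al - 16*r ^
      2*P*B ^ 2*be - 100*r ^ 2*P*B*v*a - 224*r ^ 2*P*B*v*al + 16*r ^ 2*P*B*a - 44*r ^ 2*P*v ^ 2*a - 72*r ^
      2*P*v ^ 2*al + 60*r ^ 2*P*v*a - 56*r ^ 2*B*al - 40*r ^ 2*B*be - 60*r ^ 2*v*a - 120*r ^ 2*v*al + 8*r ^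
      2*v*be + 8*r ^ 2*a + 32*r*P ^ 4*B ^ 2*v ^ 2*a - 16*r*P ^ 3*B ^ 2*v ^ 2*a - 16*r*P ^ 3*B ^ 2*v ^ 2*al +
      48*r*P ^ 3*B ^ 2*v*a + 48*r*P ^ 3*B*v ^ 2*a - 32*r*P ^ 2*B ^ 2*v*a - 32*r*P ^ 2*B ^ 2*v*al + 16*r*P ^
      2*B ^ 2*v*be + 16*r*P ^ 2*B ^ 2*a - 56*r*P ^ 2*B*v ^ 2*a - 56*r*P ^ 2*B*v ^ 2*al + 88*r*P ^ 2*B*v*a +
      24*r*P ^ 2*v ^ 2*a - 16*r*P*B ^ 2*a - 16*r*P*B ^ 2*al + 16*r*P*B ^ 2*be - 112*r*P*B*v*a -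
      112*r*P*B*v*al + 40*r*P*B*v*be + 40*r*P*B*a - 24*r*P*v ^ 2*a - 24*r*P*v ^ 2*al - 4*r*P*v ^ 2*be +
      56*r*P*v*a - 56*r*B*a - 56*r*B*al + 40*r*B*be - 56*r*v*a - 56*r*v*al + 8*r*v*be + 32*r*a) * hP +
      (-24*r ^ 4*P*al - 20*r ^ 3*P*a - 16*r ^ 3*P*al + 4*r ^ 2*P*a + 16*r ^ 2*P*al + 16*r*P*a + 16*r*P*al -
      4*r*P*be - 8*P*al - 8*P*be) * hr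
  have ha : P * (4 * al + r * a) = 0 := by
    linear_combination (r ^ 2 - r) * hkb + (r ^ 2 - r) * hZ + (r ^ 5*v*al + r ^ 5*a - r ^ 4*P*v*a + r ^ 4*v*a +
      2*r ^ 4*v*al - r ^ 3*P*v*a + r ^ 3*v*a - 2*r ^ 3*a + r ^ 2*P*v*a - r ^ 2*v*a - 2*r ^ 2*v*al + r*P*v*a
      - r*v*a - r*v*al + r*a) * hP + (-r ^ 4*P*al - r ^ 3*P*a - r ^ 3*P*al - 2*P*al) * hr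
  apply cancelr r P (20*r*B - 4*r*v - 20*B - 4*v) _ hP hr h2
  linear_combination (1) * hd + (-2*r*B + 6*r*v - 12*B + 10*v) * ha + (-8*r ^ 5*B ^ 2*al + 16*r ^ 4*P*B ^
      2*v*al + 4*r ^ 4*P*B ^ 2*a - 4*r ^ 4*B ^ 2*a - 8*r ^ 4*B ^ 2*al + 56*r ^ 4*B*v*al + 22*r ^ 4*B*a - 8*r
      ^ 3*P ^ 2*B ^ 2*v ^ 2*al - 8*r ^ 3*P ^ 2*B ^ 2*v*a + 8*r ^ 3*P*B ^ 2*v*a + 32*r ^ 3*P*B ^ 2*v*al +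
      12*r ^ 3*P*B ^ 2*a - 28*r ^ 3*P*B*v ^ 2*al - 44*r ^ 3*P*B*v*a - 4*r ^ 3*B ^ 2*a + 16*r ^ 3*B ^ 2*al +
      44*r ^ 3*B*v*a + 112*r ^ 3*B*v*al + 2*r ^ 3*B*a - 12*r ^ 3*v ^ 2*al - 20*r ^ 3*v*a + 4*r ^ 2*P ^ 3*B ^
      2*v ^ 2*a - 4*r ^ 2*P ^ 2*B ^ 2*v ^ 2*a - 24*r ^ 2*P ^ 2*B ^ 2*v ^ 2*al - 32*r ^ 2*P ^ 2*B ^ 2*v*a +
      22*r ^ 2*P ^ 2*B*v ^ 2*a + 16*r ^ 2*P*B ^ 2*v*a - 24*r ^ 2*P*B ^ 2*a - 22*r ^ 2*P*B*v ^ 2*a - 84*r ^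
      2*P*B*v ^ 2*al - 48*r ^ 2*P*B*v*a + 10*r ^ 2*P*v ^ 2*a + 16*r ^ 2*B ^ 2*a + 16*r ^ 2*B ^ 2*al + 56*r ^
      2*B*v*a - 52*r ^ 2*B*a - 10*r ^ 2*v ^ 2*a - 36*r ^ 2*v ^ 2*al - 20*r ^ 2*v*a + 20*r*P ^ 3*B ^ 2*v ^
      2*a - 12*r*P ^ 2*B ^ 2*v ^ 2*a - 24*r*P ^ 2*B ^ 2*v ^ 2*al + 12*r*P ^ 2*B ^ 2*v*a + 46*r*P ^ 2*B*v ^
      2*a - 12*r*P*B ^ 2*v*a - 32*r*P*B ^ 2*v*al - 50*r*P*B*v ^ 2*a - 84*r*P*B*v ^ 2*al + 50*r*P*B*v*a +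
      22*r*P*v ^ 2*a - 8*r*B ^ 2*al - 8*r*B ^ 2*be - 50*r*B*v*a - 112*r*B*v*al + 8*r*B*a - 22*r*v ^ 2*a -
      36*r*v ^ 2*al + 30*r*v*a + 16*P ^ 3*B ^ 2*v ^ 2*a - 8*P ^ 2*B ^ 2*v ^ 2*a - 8*P ^ 2*B ^ 2*v ^ 2*al +
      24*P ^ 2*B ^ 2*v*a + 24*P ^ 2*B*v ^ 2*a - 16*P*B ^ 2*v*a - 16*P*B ^ 2*v*al + 8*P*B ^ 2*v*be + 8*P*B ^
      2*a - 28*P*B*v ^ 2*a - 28*P*B*v ^ 2*al + 44*P*B*v*a + 12*P*v ^ 2*a - 8*B ^ 2*a - 8*B ^ 2*al + 8*B ^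
      2*be - 56*B*v*a - 56*B*v*al + 20*B*v*be + 20*B*a - 12*v ^ 2*a - 12*v ^ 2*al - 2*v ^ 2*be + 28*v*a) *
      hP + (-28*r ^ 3*P*B*al - 12*r ^ 3*al - 22*r ^ 2*P*B*a - 28*r ^ 2*P*B*al + 24*r ^ 2*P*v*al + 10*r ^
      2*P*a - 10*r ^ 2*a - 8*r ^ 2*al - 6*r*P*B*a + 20*r*P*v*a + 44*r*P*v*al - 2*r*P*a + 2*r*a + 8*r*al +
      14*P*B*a + 14*P*v*a + 36*P*v*al - 8*P*a + 8*a + 8*al - 2*be) * hr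

/-- the last step for `p ≡ 3` modulo `8` -/
theorem keyfin (r P a b al be y L mu w v0 : S) (hP : P ^ 2 = 0) (hr : r ^ 2 = 2) (h2 : IsUnit (2 : S))
    (hy : y = (1 - r) + P * w) (ha : a = (1 - r) * v0) (hb : b = -(1 + r) ^ 2 * a)
    (hbe : be = (1 + r) ^ 6 * al + 2 * (1 + r) ^ 4 * a)
    (hA : al - (1 - r) * y * ((1 - P) * (1 - r) * b + (1 - r) ^ 2 * be) =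
      (P - 1) * (r * L + (1 - r) * ((1 - P) * L + 6 * mu)))
    (hL : 2 * r * L = (2 - P * (1 + r) * w) * a) (hmu : 6 * r * mu * v0 = P * (1 - r)) :
    (al + be) * v0 = v0 ^ 2 + 5 * P := by
  subst hbe hb ha hy
  have hf : (al + ((1 + r) ^ 6 * al + 2 * (1 + r) ^ 4 * ((1 - r) * v0))) * v0 - v0 ^ 2 - 5 * P = 0 := by
    apply cancelr r P (-6*r*w - 8*w) _ hP hr h2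
    linear_combination (-2*r ^ 8*v0 - 10*r ^ 7*v0 - 18*r ^ 6*v0 - 10*r ^ 5*v0 + 10*r ^ 4*v0 + 18*r ^ 3*v0 + 8*r
      ^ 2*v0 + 4*r*v0) * hA + (-r ^ 8*P ^ 2*v0 + r ^ 8*P*v0 - 4*r ^ 7*P ^ 2*v0 + 3*r ^ 7*P*v0 + r ^ 7*v0 -
      4*r ^ 6*P ^ 2*v0 - r ^ 6*P*v0 + 5*r ^ 6*v0 + 4*r ^ 5*P ^ 2*v0 - 13*r ^ 5*P*v0 + 9*r ^ 5*v0 + 10*r ^
      4*P ^ 2*v0 - 15*r ^ 4*P*v0 + 5*r ^ 4*v0 + 4*r ^ 3*P ^ 2*v0 + r ^ 3*P*v0 - 5*r ^ 3*v0 - 5*r ^ 2*P ^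
      2*v0 + 14*r ^ 2*P*v0 - 9*r ^ 2*v0 - 2*r*P ^ 2*v0 + 6*r*P*v0 - 4*r*v0 - 2*P ^ 2*v0 + 4*P*v0 - 2*v0) *
      hL + (2*r ^ 8*P - 2*r ^ 8 + 8*r ^ 7*P - 8*r ^ 7 + 8*r ^ 6*P - 8*r ^ 6 - 8*r ^ 5*P + 8*r ^ 5 - 20*r ^
      4*P + 20*r ^ 4 - 8*r ^ 3*P + 8*r ^ 3 + 10*r ^ 2*P - 10*r ^ 2 + 4*r*P - 4*r + 4*P - 4) * hmu + (2*r ^
      13*w*v0 ^ 2 + 8*r ^ 12*w*v0 ^ 2 + 4*r ^ 11*w*v0 ^ 2 - r ^ 10*P*w*v0 ^ 2 - 23*r ^ 10*w*v0 ^ 2 - 4*r ^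
      9*P*w*v0 ^ 2 - 31*r ^ 9*w*v0 ^ 2 + 2*r ^ 9*v0 ^ 2 - 2*r ^ 9 - 3*r ^ 8*P*w*v0 ^ 2 + 14*r ^ 8*w*v0 ^ 2 +
      6*r ^ 8*v0 ^ 2 - 6*r ^ 8 + 8*r ^ 7*P*w*v0 ^ 2 + 42*r ^ 7*w*v0 ^ 2 + 14*r ^ 6*P*w*v0 ^ 2 - 2*r ^ 6*w*v0
      ^ 2 - 16*r ^ 6*v0 ^ 2 + 16*r ^ 6 - 22*r ^ 5*w*v0 ^ 2 - 12*r ^ 5*v0 ^ 2 + 12*r ^ 5 - 15*r ^ 4*P*w*v0 ^
      2 + 13*r ^ 4*w*v0 ^ 2 + 12*r ^ 4*v0 ^ 2 - 12*r ^ 4 - 6*r ^ 3*P*w*v0 ^ 2 + 7*r ^ 3*w*v0 ^ 2 + 18*r ^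
      3*v0 ^ 2 - 18*r ^ 3 + 3*r ^ 2*P*w*v0 ^ 2 - 6*r ^ 2*w*v0 ^ 2 - 6*r ^ 2*v0 ^ 2 + 6*r ^ 2 + 2*r*P*w*v0 ^
      2 - 2*r*w*v0 ^ 2 + 30*r*w + 2*P*w*v0 ^ 2 - 4*w*v0 ^ 2 + 40*w - 4*v0 ^ 2 + 4) * hP + (-2*r ^ 16*al*v0 +
      2*r ^ 15*P*al*w*v0 - 14*r ^ 15*al*v0 + 4*r ^ 15*v0 ^ 2 + 16*r ^ 14*P*al*w*v0 - 4*r ^ 14*P*w*v0 ^ 2 -
      36*r ^ 14*al*v0 + 16*r ^ 14*v0 ^ 2 + 52*r ^ 13*P*al*w*v0 - 20*r ^ 13*P*w*v0 ^ 2 - 28*r ^ 13*al*v0 +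
      8*r ^ 13*v0 ^ 2 + 80*r ^ 12*P*al*w*v0 - 28*r ^ 12*P*w*v0 ^ 2 - 2*r ^ 12*P*v0 ^ 2 + 48*r ^ 12*al*v0 -
      46*r ^ 12*v0 ^ 2 + 32*r ^ 11*P*al*w*v0 + 18*r ^ 11*P*w*v0 ^ 2 - 6*r ^ 11*P*v0 ^ 2 + 112*r ^ 11*al*v0 -
      58*r ^ 11*v0 ^ 2 - 80*r ^ 10*P*al*w*v0 + 76*r ^ 10*P*w*v0 ^ 2 + 30*r ^ 10*al*v0 + 48*r ^ 10*v0 ^ 2 -
      110*r ^ 9*P*al*w*v0 + 28*r ^ 9*P*w*v0 ^ 2 + 16*r ^ 9*P*v0 ^ 2 - 130*r ^ 9*al*v0 + 116*r ^ 9*v0 ^ 2 +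
      20*r ^ 8*P*al*w*v0 - 88*r ^ 8*P*w*v0 ^ 2 + 10*r ^ 8*P*v0 ^ 2 - 150*r ^ 8*al*v0 - 2*r ^ 8*v0 ^ 2 +
      170*r ^ 7*P*al*w*v0 - 85*r ^ 7*P*w*v0 ^ 2 - 20*r ^ 7*P*v0 ^ 2 + 2*r ^ 7*P - 30*r ^ 7*al*v0 - 90*r ^
      7*v0 ^ 2 + 200*r ^ 6*P*al*w*v0 + 9*r ^ 6*P*w*v0 ^ 2 - 26*r ^ 6*P*v0 ^ 2 + 6*r ^ 6*P + 34*r ^ 6*al*v0 -
      12*r ^ 6*v0 ^ 2 + 162*r ^ 5*P*al*w*v0 + 24*r ^ 5*P*w*v0 ^ 2 + 14*r ^ 5*P*v0 ^ 2 + 4*r ^ 5*P - 2*r ^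
      5*al*v0 + 30*r ^ 5*v0 ^ 2 + 140*r ^ 4*P*al*w*v0 - 2*r ^ 4*P*w*v0 ^ 2 + 20*r ^ 4*P*v0 ^ 2 - 4*r ^ 4*P -
      38*r ^ 4*al*v0 + 8*r ^ 4*v0 ^ 2 + 118*r ^ 3*P*al*w*v0 + 6*r ^ 3*P*w*v0 ^ 2 + 12*r ^ 3*P*v0 ^ 2 - 4*r ^
      3*P - 34*r ^ 3*al*v0 - 8*r ^ 3*v0 ^ 2 + 72*r ^ 2*P*al*w*v0 + 26*r ^ 2*P*w*v0 ^ 2 - 10*r ^ 2*P*v0 ^ 2 +
      4*r ^ 2*P - 16*r ^ 2*al*v0 - 10*r ^ 2*v0 ^ 2 + 28*r*P*al*w*v0 + 23*r*P*w*v0 ^ 2 - 4*r*P*v0 ^ 2 +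
      10*r*P - 4*r*al*v0 - 2*r*v0 ^ 2 + 8*P*al*w*v0 + 3*P*w*v0 ^ 2 - 4*P*v0 ^ 2 + 2*P + 2*v0 ^ 2) * hr
  linear_combination hf

end Pool.Agent.K6.H87.E8
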