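import Pool.Agent.K6.H87.E8.Tt
import Pool.Agent.Q64.E8.C2

set_option autoImplicit false

/-!
# The values which are needed for `p = 8 q + 3`
-/

namespace Pool.Agent.K6.H87.E8

open Finset Pool.Agent.Q267.CDE Pool.Agent.Q267.MW Pool.Agent.Q267.E8 Pool.Agent.Q156.E8.REC

variable (p : ℕ) [hp : Fact p.Prime]

theorem uval (q : ℕ) (hq : 0 < q) (hpq : p = 8 * q + 3) (x : R p) (hx : 4 * x = -1) :
    (p : R p) * T2 p (3 * x - 1) = 0 ∧ 6 * (T2 p (3 * x - 1) * T2 p (3 * x)) = p * 16 ^ q := by
  obtain ⟨l, rfl⟩ : ∃ l, q = l + 1 := ⟨q - 1, by omega⟩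
  have hp2 : p ≠ 2 := by omega
  have hpR : (p : R p) = 8 * ((l + 1 : ℕ) : R p) + 3 := by
    have := congrArg (Nat.cast : ℕ → R p) hpq
    push_cast at this ⊢
    exact this
  have u4 := unit4 p hp2 l (by omega)
  have hu4 : IsUnit (4 : R p) := by
    apply isUnit_of_red
    rw [map_ofNat]
    have := cast_ne p 2 (by norm_num) (by omega)
    push_cast at this
    have h22 : (4 : ZMod p) = 2 * 2 := by norm_num
    rw [h22]
    exact mul_ne_zero this this
  have hxe : p * x + 2 * ((l + 1 : ℕ) : R p) = 3 * x := by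
    apply hu4.mul_left_cancel
    linear_combination ((p : R p) - 3) * hx - hpR
  have hxo : p * x + 2 * (l : R p) + 1 = 3 * x - 1 := by
    push_cast at hxe
    linear_combination hxe
  have hodd := t2_odd p hp2 x l (by omega)
  rw [hxo] at hodd
  have heven := Pool.Agent.Q64.E8.c2 Pool.Agent.Q164.E8.rt p x (l + 1) hp2 (by omega)
  rw [hxe] at heven
  set U := T2 p (3 * x - 1)
  set T := T2 p (3 * x)
  set C := (((2 * (l + 1)).choose (l + 1) : ℕ) : R p)
  set w := lift p (H (ZMod p) (2 * (l + 1)) - H (ZMod p) (l + 1))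
  have hpU : (p : R p) * U = 0 := by
    apply u4.mul_left_cancel
    rw [mul_zero]
    linear_combination (p : R p) * hodd + x * (-16) ^ (l + 1) * p_sq p
  refine ⟨hpU, ?_⟩
  have hs16 : (-1 : R p) ^ (l + 1) * (-16) ^ (l + 1) = 16 ^ (l + 1) := by
    rw [← mul_pow]
    norm_num
  set s : R p := (-1) ^ (l + 1)
  set k : R p := ((l + 1 : ℕ) : R p)
  linear_combination (-2 * U * T) * hpR + (-16 * k * U) * heven + (-4 * s) * hodd +
    (-16 * k * C * s * x * w) * hpU + (-s * p * (-16) ^ (l + 1)) * hx + (p : R p) * hs16 + 2 * T * hpU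

theorem vval (q : ℕ) (hq : 0 < q) (hpq : p = 8 * q + 3) (x h : R p) (hx : 4 * x = -1) (hh : 2 * h = 1)
    (hT : G p (2 * q) (-((2 * q : ℕ) : R p) - 3 * h) = T2 p (3 * x)) :
    G p (2 * q) (-((2 * q : ℕ) : R p) - h) = (1 - p) * T2 p (3 * x) + 6 * T2 p (3 * x - 1) := by
  have hp2 : p ≠ 2 := by omega
  have hpR : (p : R p) = 8 * (q : R p) + 3 := by
    have := congrArg (Nat.cast : ℕ → R p) hpq
    push_cast at this ⊢
    exact this
  have h2 : (2 : ZMod p) ≠ 0 := by
    have := cast_ne p 2 (by norm_num) (by omega)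
    push_cast at this
    exact this
  have h3 : (3 : ZMod p) ≠ 0 := by
    have := cast_ne p 3 (by norm_num) (by omega)
    push_cast at this
    exact this
  have hu4 : IsUnit (4 : R p) := by
    apply isUnit_of_red
    rw [map_ofNat]
    have h22 : (4 : ZMod p) = 2 * 2 := by norm_num
    rw [h22]
    exact mul_ne_zero h2 h2
  have hxe : p * x + 2 * (q : R p) = 3 * x := by
    apply hu4.mul_left_cancel
    linear_combination ((p : R p) - 3) * hx - hpR
  have hd : dG p (2 * q) (-((2 * q : ℕ) : R p) - 3 * h) = dT2 p (3 * x) := by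
    apply dpg p (2 * q) (3 * x) _ (-x) (by omega)
    · push_cast
      linear_combination hxe
    · apply hu4.mul_left_cancel
      push_cast
      linear_combination -(3 + (p : R p)) * hx - 6 * hh + hpR
  have hv := vrel p (2 * q) (by omega) (-((2 * q : ℕ) : R p) - 3 * h)
  rw [show -((2 * q : ℕ) : R p) - 3 * h + 1 = -((2 * q : ℕ) : R p) - h by linear_combination -hh, hT, hd] at hv
  have hr : red p (3 * x - 1) ≠ -1 := by
    intro h5
    rw [map_sub, map_mul, map_ofNat, map_one] at h5
    have h6 : 4 * red p x = -1 := by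
      have := congrArg (red p) hx
      rw [map_mul, map_neg, map_one, map_ofNat] at this
      exact this
    apply h3
    linear_combination -4 * h5 + 3 * h6
  have hdt := dT2_eq p (3 * x - 1) hr
  rw [sub_add_cancel] at hdt
  obtain ⟨hpU, -⟩ := uval p q hq hpq x hx
  set V := G p (2 * q) (-((2 * q : ℕ) : R p) - h)
  set U := T2 p (3 * x - 1)
  set T := T2 p (3 * x)
  push_cast at hv
  have h1 : (1 - (p : R p)) * V = (1 - 2 * p) * T + 6 * U := by
    linear_combination 4 * hv + 4 * hdt + 3 * (T - 2 * U) * hx + (-V + 2 * T) * hpR + (2 * V - 2 * T) * hh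
  linear_combination (1 + (p : R p)) * h1 + 6 * hpU + (V - 2 * T) * p_sq p

end Pool.Agent.K6.H87.E8
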