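import Pool.Agent.K6.H87.E8.Rels
import Pool.Agent.K6.H87.E8.Vals

set_option autoImplicit false

/-!
# The supercongruence of MP_a989c0_nt (Q2)
-/

namespace Pool.Agent.K6.H87.E8

open Finset Pool.Agent.Q267.CDE Pool.Agent.Q267.MW Pool.Agent.Q267.E8

/-- the sum of the problem -/
def S1 (p : ℕ) : ℚ := ∑ k ∈ range p, (k : ℚ) * (Qn k : ℚ) / (-8) ^ k * ((2 * k).choose k : ℚ) ^ 2

/-- the numerator -/
def num (p : ℕ) : ℤ := ∑ k ∈ range p, (k : ℤ) * (Qn k * ((-1) ^ k * 8 ^ (p - k) * ((k.centralBinom : ℕ) : ℤ) ^ 2))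

theorem S1_eq (p : ℕ) : S1 p = (num p : ℚ) / ((8 ^ p : ℕ) : ℚ) := by
  rw [eq_div_iff (by positivity)]
  unfold S1 num
  rw [Finset.sum_mul]
  push_cast
  refine Finset.sum_congr rfl fun k hk => ?_
  have hk' : k ≤ p := (mem_range.1 hk).le
  have h1 : (8 : ℚ) ^ p = 8 ^ k * 8 ^ (p - k) := by rw [← pow_add]; congr 1; omega
  have h2 : (-8 : ℚ) ^ k = (-1) ^ k * 8 ^ k := by rw [← mul_pow]; norm_num
  have h3 : ((-1 : ℚ) ^ k) * (-1) ^ k = 1 := by rw [← mul_pow]; norm_num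
  rw [h1, h2, Nat.centralBinom]
  field_simp
  linear_combination (-((k : ℚ) * (Qn k : ℚ) * (((2 * k).choose k : ℕ) : ℚ) ^ 2)) * h3

theorem num_eq (p m : ℕ) [hp : Fact p.Prime] (S : Type) [CommRing S] [Algebra (R p) S] (r : S)
    (hpm : p = 2 * m + 1) (hr : r ^ 2 = 2) :
    ((num p : ℤ) : S) = (dF m (-2 * (1 + r)) + dF m (-2 * (1 - r))) * 8 ^ p := by
  unfold num
  have h0 : range (m + 1) ⊆ range p := by
    intro k hk
    rw [mem_range] at hk ⊢
    omega
  rw [Int.cast_sum, ← Finset.sum_subset h0]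
  · unfold dF
    rw [← Finset.sum_add_distrib, Finset.sum_mul]
    refine Finset.sum_congr rfl fun k hk => ?_
    have hk' : k ≤ m := Nat.lt_succ_iff.1 (mem_range.1 hk)
    have h1 := congrArg (algebraMap (R p) S) ((Pool.Agent.Q182.E8.cb p m k hpm).1 hk')
    simp only [map_mul, map_pow, map_natCast, map_neg, map_one, map_ofNat] at h1
    have h2 : (8 : S) ^ p = 8 ^ k * 8 ^ (p - k) := by rw [← pow_add]; congr 1; omega
    have h4 : (16 : S) ^ k = 8 ^ k * 2 ^ k := by rw [← mul_pow]; norm_num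
    have h5 : (-2 * (1 + r)) ^ k = (-1) ^ k * 2 ^ k * (1 + r) ^ k := by
      rw [← mul_pow, ← mul_pow]; norm_num
    have h6 : (-2 * (1 - r)) ^ k = (-1) ^ k * 2 ^ k * (1 - r) ^ k := by
      rw [← mul_pow, ← mul_pow]; norm_num
    push_cast
    rw [Pool.Agent.Q299.E8.qn_eq S r hr k, h1, h4, h5, h6, h2]
    ring
  · intro k hk hk'
    rw [mem_range] at hk hk'
    have h1 := congrArg (algebraMap (R p) S) ((Pool.Agent.Q182.E8.cb p m k hpm).2 (by omega) hk)
    simp only [map_pow, map_natCast, map_zero] at h1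
    push_cast
    rw [h1]
    ring

theorem rs1 (p m : ℕ) [hp : Fact p.Prime] (S : Type) [CommRing S] [Algebra (R p) S] (r : S) (c : R p)
    (hpm : p = 2 * m + 1) (hr : r ^ 2 = 2) (hinj : Function.Injective (algebraMap (R p) S))
    (hc : algebraMap (R p) S c = dF m (-2 * (1 + r)) + dF m (-2 * (1 - r))) : IsRed p (S1 p) c := by
  refine ⟨num p, 8 ^ p, ?_, S1_eq p, ?_⟩
  · intro h
    have h1 : p ∣ 2 ^ 3 := by
      have := hp.out.dvd_of_dvd_pow h
      norm_num at this ⊢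
      exact this
    have h2 := hp.out.dvd_of_dvd_pow h1
    have h3 := Nat.le_of_dvd (by norm_num) h2
    have h4 := hp.out.two_le
    omega
  · apply hinj
    have h8 : algebraMap (R p) S ((8 ^ p : ℕ) : R p) = 8 ^ p := by
      rw [map_natCast]
      push_cast
      rfl
    rw [map_intCast, num_eq p m S r hpm hr, map_mul, hc, h8]

theorem isUnit_two (p : ℕ) [Fact p.Prime] (hp2 : p ≠ 2) (S : Type) [CommRing S] [Algebra (R p) S] :
    IsUnit (2 : S) := by
  have h2 : IsUnit (2 : R p) := by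
    have := isUnit_nat p 2 (by norm_num) (lt_of_le_of_ne (Fact.out : p.Prime).two_le (Ne.symm hp2))
    exact_mod_cast this
  have := h2.map (algebraMap (R p) S)
  rwa [map_ofNat] at this

/-- `2^m = 1 + p B` for `p ≡ 1` modulo `8` -/
theorem two_pow1 (p q : ℕ) [hp : Fact p.Prime] (hpq : p = 8 * q + 1) :
    ∃ B : R p, (2 : R p) ^ (4 * q) = 1 + p * B := by
  have h20 : (2 : ZMod p) ≠ 0 := by
    have := cast_ne p 2 two_pos (by
      have := hp.out.two_le
      omega)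
    exact_mod_cast this
  have hsq : IsSquare (2 : ZMod p) := by
    rw [ZMod.exists_sq_eq_two_iff (by omega)]
    omega
  have hdiv : p / 2 = 4 * q := by omega
  have h1 : (2 : ZMod p) ^ (4 * q) = 1 := by
    rw [← hdiv]
    exact (ZMod.euler_criterion p h20).1 hsq
  obtain ⟨z, hz⟩ := red_eq_of p ((2 : R p) ^ (4 * q)) 1 (by rw [map_pow, map_ofNat, h1, map_one])
  exact ⟨z, hz⟩

/-- Case 1 -/
theorem sum1 (p q : ℕ) [Fact p.Prime] (hpq : p = 8 * q + 1) (h3 : 3 < p) : IsRed p (S1 p) 0 := by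
  have hp2 : p ≠ 2 := by omega
  have hpm : p = 2 * (4 * q) + 1 := by omega
  obtain ⟨r, hr⟩ := exists_sqrt p (by omega)
  obtain ⟨g, hg⟩ := exists_half p hp2
  obtain ⟨B, hB0⟩ := two_pow1 p q hpq
  have hB : (-1 : R p) ^ (4 * q) * 2 ^ (4 * q) = 1 + p * B := by
    rw [hB0, show 4 * q = 2 * (2 * q) by ring, pow_mul]
    norm_num
  obtain ⟨v, hv⟩ := pow_near p (4 * q) (R p) B 1 (by rw [hB0, one_mul]) (-r) (by rw [neg_sq, hr]) hpm
  have hx : (1 - r) ^ p = (1 - r) + (p : R p) * v := by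
    rw [sub_eq_add_neg, hv]
    ring
  have hP := p_sq p
  have h2 := isUnit_two p hp2 (R p)
  have hpe := pow_e' p (4 * q) hpm (R p) r _ hr rfl
  have hzp := zpow p (4 * q) hpm (R p) r B _ rfl hB
  have hk : Kf (4 * q) (-2 * (1 - r)) = -((1 + r) * (1 - r) ^ p) * Ff (4 * q) (-2 * (1 + r)) := by
    rw [K1_minus k1 (R p) (4 * q) r hr, hpe]
  have hka := dk_minus p (4 * q) hpm (R p) r hr
  have ht := kr_val p (4 * q) hpm h3 (R p) r g B hr hg hB
  have hii := ii_val p (4 * q) hpm h3 (R p) r _ hr rfl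
  have hd := hd_val p (4 * q) hpm h3 (R p) r g B _ hr hg rfl hB
  have hkb := dK_dF p (4 * q) hpm (R p) (-2 * (1 - r))
  have hab := key1a r p B v (Ff (4 * q) (-2 * (1 + r))) _ _ _ _ _ hP hr h2 hx hzp hk ht hii
  rw [hab] at hd ht
  have hfin := key1 r p B v (Ff (4 * q) (-2 * (1 + r))) (dF (4 * q) (-2 * (1 + r))) _ _ _ _ _ _ hP hr h2 hx hzp hk
    (by rw [hka, hpe]; ring) ht hd hkb
  apply rs1 p (4 * q) (R p) r 0 hpm hr
  · intro a b hab
    exact hab
  · rw [map_zero, hfin]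

/-- Case 3 -/
theorem sum3 (p q : ℕ) [Fact p.Prime] (hq : 0 < q) (hpq : p = 8 * q + 3) :
    ∃ v : R p, v = (-1) ^ (q + 1) * U p q (4 * q + 1) ∧ ∀ c : R p, (IsUnit v → c * v = v ^ 2 + 5 * p →
      IsRed p (S1 p) c) := by
  have hp2 : p ≠ 2 := by omega
  have h3 : 3 < p := by omega
  have hpm : p = 2 * (4 * q + 1) + 1 := by omega
  obtain ⟨S, _, _, K, _, _, ρ, r, hr, hinj, hker⟩ := Pool.Agent.Q205.E8.ax p q hpq
  obtain ⟨h, hh⟩ := exists_half p hp2
  obtain ⟨h', x, hh', hx⟩ := exists_x4 p hp2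
  obtain ⟨Q, hQ⟩ := exists_Q p hp2
  have hpR : (p : R p) = 8 * q + 3 := by
    have := congrArg (Nat.cast : ℕ → R p) hpq
    push_cast at this
    exact this
  have hxe : p * x + 2 * q = 3 * x := by
    apply four_cancel p hp2
    linear_combination ((p : R p) - 3) * hx - hpR
  have hT2 := T2_val (Pool.Agent.Q64.E8.c2 Pool.Agent.Q164.E8.rt) p q (4 * q + 1) hq hpm (by omega) le_rfl x hx Q hQ
  rw [hxe] at hT2
  have hGT : G p (2 * q) (-((2 * q : ℕ) : R p) - 3 * h) = T2 p (3 * x) := by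
    apply Pool.Agent.Q153.E8.pg p (2 * q) (3 * x) (-((2 * q : ℕ) : R p) - 3 * h) (-x) (by omega)
    · push_cast
      linear_combination hxe
    · apply four_cancel p hp2
      push_cast
      linear_combination -(3 + (p : R p)) * hx - 6 * hh + hpR
  have hPS : ∑ j ∈ range (2 * q + 1), (((2 * (2 * q) + 1).choose (2 * j) : ℕ) : R p) *
      ((j.centralBinom : ℕ) : R p) * (h ^ 2) ^ j * 2 ^ (2 * q - j) = T2 p (3 * x) := by
    rw [Pool.Agent.Q299.E8.po p (2 * q) h hh (by omega)]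
    exact hGT
  have hPS' : ∑ j ∈ range (2 * q + 1), (((2 * (2 * q)).choose (2 * j) : ℕ) : R p) * ((j.centralBinom : ℕ) : R p) *
      (h ^ 2) ^ j * 2 ^ (2 * q - j) = (1 - p) * T2 p (3 * x) + 6 * T2 p (3 * x - 1) := by
    rw [Pool.Agent.Q181.E8.pe p (2 * q) h hh (by omega)]
    exact vval p q hq hpq x h hx hh hGT
  obtain ⟨hpU, hUT⟩ := uval p q hq hpq x hx
  have hg : 2 * algebraMap (R p) S h = 1 := by
    have := congrArg (algebraMap (R p) S) hh
    rw [map_mul, map_one, map_ofNat] at this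
    exact this
  set g := algebraMap (R p) S h with hgdef
  have hE : Ef (4 * q + 1) ((1 + r) * g) = (1 + r) ^ (4 * q + 1) * (r * algebraMap (R p) S (T2 p (3 * x))) := by
    have := Pool.Agent.Q176.E8.pv3 ev p (2 * q) S r h hr hh
    rw [hPS] at this
    have e4 : 2 * (2 * q) = 4 * q := by ring
    rw [e4] at this
    exact this
  have hE' : Ef (4 * q) ((1 + r) * g) = (1 + r) ^ (4 * q) *
      algebraMap (R p) S ((1 - p) * T2 p (3 * x) + 6 * T2 p (3 * x - 1)) := by
    have := Pool.Agent.Q176.E8.pv1 ev p (2 * q) S r h hr hh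
    rw [hPS'] at this
    have e4 : 2 * (2 * q) = 4 * q := by ring
    rw [e4] at this
    exact this
  rw [map_add, map_mul, map_mul, map_sub, map_one, map_natCast, map_ofNat] at hE'
  have hKp := K1_plus k1 S (4 * q + 1) r hr
  have hKm := K1_minus k1 S (4 * q + 1) r hr
  have hEKp := ek p (4 * q + 1) S (-2 * (1 + r)) ((1 + r) * g) hpm (by linear_combination -2 * (1 + r) * hg)
  have hEKm := ek p (4 * q + 1) S (-2 * (1 - r)) ((1 - r) * g) hpm (by linear_combination -2 * (1 - r) * hg)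
  have h1 : Ff (4 * q + 1) (-2 * (1 + r)) + (1 + r) ^ (2 * (4 * q + 1)) * Ff (4 * q + 1) (-2 * (1 - r)) =
      2 * ((1 + r) ^ (4 * q + 1) * (r * algebraMap (R p) S (T2 p (3 * x)))) := by
    rw [← hKp, ← hEKp, hE]
  -- the Landen transformation
  have hLD := Pool.Agent.Q164.E8.ld S (4 * q + 1) (r - 1) g (by linear_combination g * hr + hg)
  have hK2 := Pool.Agent.Q121.E8.k2 S (4 * q + 1) (-2 * (1 - r))
  have e5 : (1 : S) - -2 * (1 - r) = (r - 1) ^ 2 := by linear_combination -hr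
  have hodd : ((-1 : S)) ^ (4 * q + 1) = -1 := by
    rw [pow_succ, pow_mul]
    norm_num
  rw [e5, hodd] at hK2
  have e6 : (1 + (r - 1)) ^ (2 * (4 * q + 1)) = (2 : S) ^ (4 * q + 1) := by
    rw [pow_mul, show (1 + (r - 1)) ^ 2 = (2 : S) by linear_combination hr]
  rw [hK2, e6, show -((r - 1) * g) = (1 - r) * g by ring] at hLD
  have h2 : (2 : S) ^ (4 * q + 1) * (Ff (4 * q + 1) (-2 * (1 - r)) + Kf (4 * q + 1) (-2 * (1 - r))) =
      -2 * Kr (4 * q + 1) (-2 * (1 - r)) := by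
    rw [← hEKm]
    linear_combination -2 * hLD
  have hII := Pool.Agent.Q192.E8.ii Pool.Agent.Q265.E8.lg Pool.Agent.Q265.E8.lm Pool.Agent.Q153.E8.df
    p (4 * q + 1) S (-2 * (1 - r)) hpm (by omega)
  have hb := Pool.Agent.Q149.E8.ej p q S r (Ff (4 * q + 1) (-2 * (1 + r))) (Ff (4 * q + 1) (-2 * (1 - r)))
    (Kf (4 * q + 1) (-2 * (1 - r))) (Kr (4 * q + 1) (-2 * (1 - r))) Q hpq hr hQ hKm h2 hII
  have hsn := Pool.Agent.Q299.E8.sn3 p q K (ρ r) hpq (by rw [← map_pow, hr, map_ofNat])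
  have hfin := Pool.Agent.Q149.E8.lf3 p q S K ρ r (Ff (4 * q + 1) (-2 * (1 + r)))
    (Ff (4 * q + 1) (-2 * (1 - r))) (U p q (4 * q + 1)) (T2 p (3 * x)) Q hker hpq hr hQ h1 hb hT2
    (by simp only [map_mul, map_pow, map_add, map_one, map_ofNat]; exact hsn)
  -- the new part
  have hP := Pool.Agent.Q149.E8.sqP p S
  have hPm : (p : S) = 2 * ((4 * q + 1 : ℕ) : S) + 1 := by exact_mod_cast congrArg (Nat.cast : ℕ → S) hpm
  have hu2 := isUnit_two p hp2 S
  have htp := Pool.Agent.Q149.E8.two_pow p q h Q hpq hh hQ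
  set B : S := algebraMap (R p) S (lift p Q * h) with hBdef
  have hB1 : (2 : S) ^ (4 * q + 1) = -(1 + (p : S) * B) := by
    have := congrArg (algebraMap (R p) S) htp
    rw [map_pow, map_ofNat, map_neg, map_add, map_one, mul_assoc, map_mul, map_natCast] at this
    exact this
  have hB : (-1 : S) ^ (4 * q + 1) * 2 ^ (4 * q + 1) = 1 + (p : S) * B := by
    rw [hB1, hodd]
    ring
  obtain ⟨v, hv⟩ := pow_near p (4 * q + 1) S B (-1) (by rw [hB1]; ring) (-r) (by rw [neg_sq, hr]) hpm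
  have hx' : (1 - r) ^ p = (1 + r) + (p : S) * v := by
    rw [sub_eq_add_neg, hv]
    ring
  obtain ⟨w, hw⟩ := pow_near p (4 * q + 1) S B (-1) (by rw [hB1]; ring) r hr hpm
  have hy' : (1 + r) ^ p = (1 - r) + (p : S) * w := by
    rw [hw]
    ring
  have hpe' := pow_e' p (4 * q + 1) hpm S r _ hr rfl
  have hpe := pow_e p (4 * q + 1) hpm S r hr
  have hzp := zpow p (4 * q + 1) hpm S r B _ rfl hB
  have hka := dk_minus p (4 * q + 1) hpm S r hr
  have ht := kr_val p (4 * q + 1) hpm h3 S r g B hr hg hB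
  have hd := hd_val p (4 * q + 1) hpm h3 S r g B _ hr hg rfl hB
  have hkb := dK_dF p (4 * q + 1) hpm S (-2 * (1 - r))
  have hbe := key3 r p B v (Ff (4 * q + 1) (-2 * (1 + r))) (Ff (4 * q + 1) (-2 * (1 - r)))
    (dF (4 * q + 1) (-2 * (1 + r))) (dF (4 * q + 1) (-2 * (1 - r))) _ _ _ _ _ hP hr hu2 hx' hzp
    (by rw [hKm, hpe']) (by rw [hka, hpe']; ring) ht hb hd hkb
  -- the equation for `dE`
  have hdEK := dek ek p (4 * q + 1) (-2 * (1 + r)) ((1 + r) * g) hpm (by linear_combination -2 * (1 + r) * hg)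
  have hdkp : dK (4 * q + 1) (-2 * (1 + r)) = (1 - (p : S)) * (1 - r) * Kf (4 * q + 1) (-2 * (1 + r)) +
      (1 + r) ^ (2 * (4 * q + 1)) * ((1 - r) ^ 2 * dF (4 * q + 1) (-2 * (1 - r))) := by
    have := dk_minus p (4 * q + 1) hpm S (-r) (by rw [neg_sq, hr])
    rw [sub_neg_eq_add, ← sub_eq_add_neg] at this
    exact this
  have hdE := dE_succ S (4 * q) ((1 + r) * g)
  have hl : (1 + r) ^ (4 * q) = -(1 - r) * (1 + r) ^ (4 * q + 1) := by
    rw [pow_succ]
    linear_combination -(1 + r) ^ (4 * q) * hr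
  rw [hE, hE', hl] at hdE
  rw [hKp, hpe] at hdkp
  rw [hdE, hdkp] at hdEK
  set T := algebraMap (R p) S (T2 p (3 * x)) with hTdef
  set V := algebraMap (R p) S (T2 p (3 * x - 1)) with hVdef
  have hPV : (p : S) * V = 0 := by
    have := congrArg (algebraMap (R p) S) hpU
    rwa [map_mul, map_natCast, map_zero] at this
  have hVT : 6 * (V * T) = (p : S) * 16 ^ q := by
    have := congrArg (algebraMap (R p) S) hUT
    rwa [map_mul, map_mul, map_mul, map_pow, map_ofNat, map_ofNat, map_natCast] at this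
  set a := Ff (4 * q + 1) (-2 * (1 + r))
  set b := Ff (4 * q + 1) (-2 * (1 - r))
  set al := dF (4 * q + 1) (-2 * (1 + r))
  set be := dF (4 * q + 1) (-2 * (1 - r))
  set l : S := (1 + r) ^ (4 * q + 1) with hldef
  refine ⟨(-1) ^ (q + 1) * U p q (4 * q + 1), rfl, ?_⟩
  intro c hvu hc
  set v0 : S := algebraMap (R p) S ((-1) ^ (q + 1) * U p q (4 * q + 1)) with hv0
  have hsum : a + b = 2 * v0 := by
    rw [hfin, map_mul, map_ofNat]
  have ha : a = (1 - r) * v0 := by
    apply hu2.mul_left_cancel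
    linear_combination (1 - r) * hsum - (1 - r) * hb - a * hr - (r * a) * hr
  have hy1 : (1 + r) ^ (2 * (4 * q + 1)) = l ^ 2 := by rw [hldef, ← pow_mul, mul_comm]
  have hL : 2 * r * (l * T) = (2 - (p : S) * (1 + r) * w) * a := by
    rw [hpe, hy', hb] at h1
    linear_combination -h1 + (r ^ 2 * a - (p : S) * w * a * (1 + r)) * hr
  have hmu : 6 * r * (l * V) * v0 = (p : S) * (1 - r) := by
    apply hu2.mul_left_cancel
    have hl2 : (p : S) * l ^ 2 = -(p * (1 - r) ^ 2) := by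
      rw [← hy1, hpe, hy']
      linear_combination -(1 - r) * w * hP
    have h16 : (p : S) * (2 * 16 ^ q) = -p := by
      have e7 : (2 : S) * 16 ^ q = 2 ^ (4 * q + 1) := by
        rw [pow_succ, pow_mul]
        norm_num
        ring
      rw [e7, hB1]
      linear_combination -B * hP
    have e8 : 12 * ((l * V) * (l * T)) = (p : S) * (1 - r) ^ 2 := by
      linear_combination 2 * l ^ 2 * hVT + l ^ 2 * h16 - hl2
    have e9 : 12 * (l * V) * a = r * (p * (1 - r) ^ 2) := by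
      linear_combination r * e8 - 6 * (l * V) * hL + 6 * l * (1 + r) * w * a * hPV
    rw [ha] at e9
    linear_combination (-r * (1 + r)) * e9 + (12 * r * (l * V) * v0 * (-1) + (p : S) * (1 - r) * (r ^ 2 + 1)) * hr
  have hA : al - (1 - r) * (1 + r) ^ p * ((1 - (p : S)) * (1 - r) * b + (1 - r) ^ 2 * be) =
      ((p : S) - 1) * (r * (l * T) + (1 - r) * ((1 - (p : S)) * (l * T) + 6 * (l * V))) := by
    push_cast at hPm hdEK
    linear_combination -hdEK + (-(l * (r * T) - -(1 - r) * l * ((1 - (p : S)) * T + 6 * V))) * hPm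
  have hkf := keyfin r p a b al be _ (l * T) (l * V) w v0 hP hr hu2 hy' ha hb hbe hA hL hmu
  apply rs1 p (4 * q + 1) S r c hpm hr hinj
  have hvS : IsUnit v0 := hvu.map (algebraMap (R p) S)
  apply hvS.mul_right_cancel
  have hc' : algebraMap (R p) S c * v0 = v0 ^ 2 + 5 * (p : S) := by
    rw [hv0, ← map_mul, hc, map_add, map_pow, map_mul (algebraMap (R p) S) 5 (p : R p), map_ofNat, map_natCast]
  exact hc'.trans hkf.symm

end Pool.Agent.K6.H87.E8
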