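import Pool.Agent.K6.H87.E8.Der
import Pool.Agent.K6.H87.E8.Key
import Pool.Agent.Q267.E8.Main2
import Pool.Agent.Q267.E8.K1
import Pool.Agent.Q267.E8.EK

set_option autoImplicit false
set_option linter.unusedSectionVars false

/-!
# The relations between the values at `-2 (1 ± r)`
-/

namespace Pool.Agent.K6.H87.E8

open Finset Pool.Agent.Q267.CDE Pool.Agent.Q267.MW Pool.Agent.Q267.E8

/-- `K = F` modulo `p` -/
theorem dK_dF (p m : ℕ) [Fact p.Prime] (hpm : p = 2 * m + 1) (S : Type) [CommRing S] [Algebra (R p) S] (z : S) :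
    (p : S) * dK m z = p * dF m z := by
  unfold dK dF
  rw [mul_sum, mul_sum]
  refine sum_congr rfl fun k hk => ?_
  have hk' : k ≤ m := Nat.lt_succ_iff.1 (mem_range.1 hk)
  have h1 : (p : R p) * ((-1) ^ k * (((m + k).choose k : ℕ) : R p)) = p * ((m.choose k : ℕ) : R p) := by
    apply p_mul_eq
    rw [map_mul, map_pow, map_neg, map_one, red_nat, red_nat]
    exact Pool.Agent.Q154.E8.RB.choose_refl p m hpm k hk'
  have h2 := congrArg (algebraMap (R p) S) h1
  rw [map_mul, map_mul, map_mul, map_pow, map_neg, map_one, map_natCast, map_natCast, map_natCast] at h2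
  linear_combination (-(k : S) * ((m.choose k : ℕ) : S) * z ^ k) * h2

theorem dE_succ (S : Type) [CommRing S] (n : ℕ) (w : S) :
    dE (n + 1) w = ((n : S) + 1) * (Ef (n + 1) w - Ef n w) := by
  have h0 : Ef n w = ∑ k ∈ range (n + 1 + 1), ((n.choose k : ℕ) : S) * ((k.centralBinom : ℕ) : S) * w ^ k := by
    rw [sum_range_succ, Nat.choose_eq_zero_of_lt (Nat.lt_succ_self n)]
    simp [Ef]
  rw [h0]
  unfold dE Ef
  rw [← sum_sub_distrib, mul_sum]
  refine sum_congr rfl fun k hk => ?_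
  have h1 : (k : S) * (((n + 1).choose k : ℕ) : S) =
      ((n : S) + 1) * ((((n + 1).choose k : ℕ) : S) - ((n.choose k : ℕ) : S)) := by
    rcases k with _ | k
    · simp
    · have h2 := congrArg (Nat.cast : ℕ → S) (Nat.add_one_mul_choose_eq n k)
      have h3 := congrArg (Nat.cast : ℕ → S) (Nat.choose_succ_succ n k)
      push_cast at h2 h3 ⊢
      linear_combination -h2 - ((n : S) + 1) * h3
  linear_combination (((k.centralBinom : ℕ) : S) * w ^ k) * h1

variable (p m : ℕ) [hp : Fact p.Prime] (hpm : p = 2 * m + 1) (h3 : 3 < p) (S : Type) [CommRing S]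
  [Algebra (R p) S] (r g B x : S) (hr : r ^ 2 = 2) (hg : 2 * g = 1) (hx : x = (1 - r) ^ p)
  (hB : (-1) ^ m * 2 ^ m = 1 + (p : S) * B)

include hpm hx hr in
theorem pow_e' : (1 - r) ^ (2 * m) = -((1 + r) * x) := by
  rw [hx]
  have h1 : (1 - r) ^ p = (1 - r) ^ (2 * m) * (1 - r) := by rw [← pow_succ, ← hpm]
  rw [h1]
  linear_combination -(1 - r) ^ (2 * m) * hr

include hpm hr in
theorem pow_e : (1 + r) ^ (2 * m) = -((1 - r) * (1 + r) ^ p) := by
  have h1 : (1 + r) ^ p = (1 + r) ^ (2 * m) * (1 + r) := by rw [← pow_succ, ← hpm]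
  rw [h1]
  linear_combination -(1 + r) ^ (2 * m) * hr

include hpm hB hx in
theorem zpow : (-2 * (1 - r)) ^ p = -(2 * (1 + 2 * (p : S) * B) * x) := by
  have hP := Pool.Agent.Q149.E8.sqP p S
  have hodd : Odd p := ⟨m, hpm⟩
  have hs : ((-1 : S) ^ m) ^ 2 = 1 := by rw [← pow_mul, mul_comm, pow_mul, neg_one_sq, one_pow]
  have h2 : (2 : S) ^ p = 2 * (1 + 2 * (p : S) * B) := by
    have h4 : (2 : S) ^ p = 2 * (2 ^ m) ^ 2 := by
      rw [← pow_mul, ← pow_succ']
      congr 1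
      omega
    have h5 : ((2 : S) ^ m) ^ 2 = (1 + (p : S) * B) ^ 2 := by
      rw [← hB, mul_pow, hs, one_mul]
    rw [h4, h5]
    linear_combination 2 * B ^ 2 * hP
  rw [mul_pow, hodd.neg_pow, h2, hx]
  ring

include hr in
theorem one_sub_z : 1 - -2 * (1 - r) = (1 - r) ^ 2 := by linear_combination -hr

include hpm h3 hr hg hB in
theorem kr_val : 2 * Kr m (-2 * (1 - r)) = (1 + (p : S) * B) * (Ff m (-2 * (1 - r)) + Kf m (-2 * (1 - r))) := by
  have hs : ((-1 : S) ^ m) * (-1) ^ m = 1 := by rw [← mul_pow]; norm_num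
  have hEK := ek p m S (-2 * (1 - r)) ((1 - r) * g) hpm (by linear_combination -2 * (1 - r) * hg)
  have hLD := Pool.Agent.Q164.E8.ld S m (r - 1) g (by linear_combination g * hr + hg)
  have hK2 := Pool.Agent.Q121.E8.k2 S m (-2 * (1 - r))
  rw [one_sub_z S r hr, show (1 - r) ^ 2 = (r - 1) ^ 2 by ring] at hK2
  have e6 : (1 + (r - 1)) ^ (2 * m) = (2 : S) ^ m := by
    rw [pow_mul, show (1 + (r - 1)) ^ 2 = (2 : S) by linear_combination hr]
  rw [hK2, e6, show -((r - 1) * g) = (1 - r) * g by ring] at hLD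
  rw [← hEK, ← hB]
  linear_combination 2 * (-1) ^ m * hLD - 2 * Kr m (-2 * (1 - r)) * hs

include hpm h3 hr hg hB in
theorem dkr_val : 4 * dKr m (-2 * (1 - r)) = (1 - (p : S)) * r * (2 * Kr m (-2 * (1 - r))) -
    2 * (1 + (p : S) * B) * (dF m (-2 * (1 - r)) + dK m (-2 * (1 - r))) := by
  have hPm : (p : S) = 2 * m + 1 := by exact_mod_cast congrArg (Nat.cast : ℕ → S) hpm
  have hs : ((-1 : S) ^ m) * (-1) ^ m = 1 := by rw [← mul_pow]; norm_num
  have hgr : (g : S) * r ^ 2 = 1 := by rw [hr]; linear_combination hg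
  have hdEK := dek ek p m (-2 * (1 - r)) ((1 - r) * g) hpm (by linear_combination -2 * (1 - r) * hg)
  have hLD := dld Pool.Agent.Q164.E8.ld m (r - 1) (r * g) (by linear_combination hgr)
  have hK2 := Pool.Agent.Q121.E8.k2 S m (-2 * (1 - r))
  have hdK2 := dk2 Pool.Agent.Q121.E8.k2 m (-2 * (1 - r)) ((1 + r) ^ 2) (by
    rw [one_sub_z S r hr]
    linear_combination r ^ 2 * hr)
  rw [one_sub_z S r hr, show (1 - r) ^ 2 = (r - 1) ^ 2 by ring] at hK2 hdK2
  have e6 : (1 + (r - 1)) ^ (2 * m) = (2 : S) ^ m := by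
    rw [pow_mul, show (1 + (r - 1)) ^ 2 = (2 : S) by linear_combination hr]
  have e7 : -((r - 1) * (r * g) ^ 2) = (1 - r) * g := by
    linear_combination -(r - 1) * g * hgr
  rw [hK2, e6, e7] at hLD
  rw [← hdEK, ← hB]
  set D := dE m ((1 - r) * g)
  set K1 := dK m ((r - 1) ^ 2)
  set σ := dKr m (-2 * (1 - r))
  set κ := Kr m (-2 * (1 - r))
  set e : S := (-1) ^ m
  set t : S := 2 ^ m
  -- hdK2 : 2 (1+r) ... ; hLD
  have h5 : -2 * (1 + r) * K1 = e * σ := by
    linear_combination hdK2 + (2 * (1 + r) * K1) * hr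
  have h6 : 2 * K1 = (m : S) * (2 - r) * (e * κ) + t * ((r - 1) * D) := by
    linear_combination hLD + ((m : S) * e * κ * (2 * g) - 2 * g * t * D) * hr +
      (-(m : S) * r * e * κ + (m : S) * 2 * e * κ + (r - 2) * t * D) * hg
  have h7 : 2 * (e * σ) = -2 * r * (m : S) * (e * κ) - 2 * (t * D) := by
    linear_combination -2 * h5 + (-2 * (1 + r)) * h6 + (2 * (m : S) * (e * κ) - 2 * t * D) * hr
  linear_combination 2 * e * h7 + (4 * σ + 4 * r * m * κ) * (-hs) + r * (2 * κ) * hPm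

include hpm hr in
theorem dk_minus : dK m (-2 * (1 - r)) = (1 - (p : S)) * (1 + r) * Kf m (-2 * (1 - r)) +
    (1 - r) ^ (2 * m) * ((1 + r) ^ 2 * dF m (-2 * (1 + r))) := by
  have hPm : (p : S) = 2 * m + 1 := by exact_mod_cast congrArg (Nat.cast : ℕ → S) hpm
  have h := dk1 k1 m (-2 * (1 - r)) ((1 + r) ^ 2) (by
    rw [one_sub_z S r hr]
    linear_combination r ^ 2 * hr)
  rw [one_sub_z S r hr, show -(-2 * (1 - r) * (1 + r) ^ 2) = -2 * (1 + r) by
    linear_combination -2 * (1 + r) * hr, ← pow_mul] at h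
  rw [h]
  linear_combination (-2 * (m : S) * (1 + r) * Kf m (-2 * (1 - r))) * hr +
    ((1 + r) * Kf m (-2 * (1 - r))) * hPm

include hpm h3 hr hg hB hx in
/-- the derivative of II at `-2 (1 - r)` -/
theorem hd_val : 2 * (p : S) * ((-2 * (1 - r)) ^ p - 2 * (1 + r) * x ^ 2) * Ff m (-2 * (1 - r)) +
    2 * (1 + (-2 * (1 - r)) ^ p + x ^ 2) * dF m (-2 * (1 - r)) =
      -4 * (p : S) * (-2 * (1 - r)) ^ p * Kf m (-2 * (1 - r)) + 4 * (1 - (-2 * (1 - r)) ^ p) * dK m (-2 * (1 - r)) +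
      2 * (p : S) * (-2 * (1 - r)) ^ p * (2 * Kr m (-2 * (1 - r))) +
      (-2 * (1 - r)) ^ p * ((1 - (p : S)) * r * (2 * Kr m (-2 * (1 - r))) -
        2 * (1 + (p : S) * B) * (dF m (-2 * (1 - r)) + dK m (-2 * (1 - r)))) := by
  have h := dii (Pool.Agent.Q192.E8.ii Pool.Agent.Q265.E8.lg Pool.Agent.Q265.E8.lm Pool.Agent.Q153.E8.df)
    p m (-2 * (1 - r)) ((1 + r) ^ 2) hpm h3 (by
    rw [one_sub_z S r hr]
    linear_combination r ^ 2 * hr)
  have hv : -2 * (1 - r) * (1 + r) ^ 2 = 2 * (1 + r) := by linear_combination 2 * (1 + r) * hr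
  have hx2 : ((1 - r) ^ 2) ^ p = x ^ 2 := by rw [hx, ← pow_mul, ← pow_mul, mul_comm]
  rw [one_sub_z S r hr, hv, hx2] at h
  have hk := dkr_val p m hpm h3 S r g B hr hg hB
  linear_combination 2 * h + (-2 * (1 - r)) ^ p * hk

include hpm h3 hr hx in
theorem ii_val : (1 + (-2 * (1 - r)) ^ p + x ^ 2) * Ff m (-2 * (1 - r)) =
    2 * (1 - (-2 * (1 - r)) ^ p) * Kf m (-2 * (1 - r)) + (-2 * (1 - r)) ^ p * (2 * Kr m (-2 * (1 - r))) := by
  have h := Pool.Agent.Q192.E8.ii Pool.Agent.Q265.E8.lg Pool.Agent.Q265.E8.lm Pool.Agent.Q153.E8.df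
    p m S (-2 * (1 - r)) hpm h3
  have hx2 : ((1 - r) ^ 2) ^ p = x ^ 2 := by rw [hx, ← pow_mul, ← pow_mul, mul_comm]
  rw [one_sub_z S r hr, hx2] at h
  linear_combination h

/-- the power `(1 - r)^p` -/
theorem pow_near (s : S) (h2 : (2 : S) ^ m = s * (1 + (p : S) * B)) (e : S) (he : e ^ 2 = 2)
    (hpm : p = 2 * m + 1) : ∃ v, (1 + e) ^ p = 1 + s * e + (p : S) * v := by
  obtain ⟨w, hw⟩ := exists_add_pow_prime_eq hp.out (1 : S) e
  have hrp : e ^ p = e * 2 ^ m := by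
    rw [hpm, pow_succ, pow_mul, he]
    ring
  refine ⟨e * w + e * s * B, ?_⟩
  rw [hw, one_pow, hrp, h2]
  ring

end Pool.Agent.K6.H87.E8
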