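import Pool.Agent.Q267.E8.Stm2
import Pool.Agent.Q156.E8.REC
import Pool.Agent.Q153.E8.PG
import Pool.Agent.Q164.E8.RT

set_option autoImplicit false

/-!
# The alternating sums of squares: first moments and the odd case
-/

namespace Pool.Agent.K6.H87.E8

open Finset Pool.Agent.Q267.CDE Pool.Agent.Q267.MW Pool.Agent.Q267.E8 Pool.Agent.Q156.E8.REC

variable (p : ℕ) [hp : Fact p.Prime]

/-- `∑_{k≤n} (-1)^k C(n,k) C(y,k)` -/
noncomputable def G (p n : ℕ) (y : R p) : R p :=
  ∑ k ∈ range (n + 1), (-1) ^ k * ((n.choose k : ℕ) : R p) * bR p y k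

/-- `∑_{k≤n} (-1)^k k C(n,k) C(y,k)` -/
noncomputable def dG (p n : ℕ) (y : R p) : R p :=
  ∑ k ∈ range (n + 1), (k : R p) * ((-1) ^ k * ((n.choose k : ℕ) : R p) * bR p y k)

/-- `∑_{k<p} (-1)^k k C(x,k)²` -/
noncomputable def dT2 (p : ℕ) (x : R p) : R p := ∑ k ∈ range p, (k : R p) * ((-1) ^ k * bR p x k ^ 2)

theorem vrel_tele (n : ℕ) (hn : n < p) (y : R p) (K : ℕ) (hK : K ≤ n) :
    ∑ k ∈ range (K + 1), ((y + 1) * ((-1) ^ k * ((n.choose k : ℕ) : R p) * bR p (y + 1) k) -
      (y + 1 - n) * ((-1) ^ k * ((n.choose k : ℕ) : R p) * bR p y k) -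
      2 * ((k : R p) * ((-1) ^ k * ((n.choose k : ℕ) : R p) * bR p y k))) =
    (-1) ^ K * ((n.choose K : ℕ) : R p) * ((n : R p) - K) * bR p y K := by
  induction K with
  | zero =>
    rw [zero_add, sum_range_one, bR_zero, bR_zero]
    simp
  | succ K ih =>
    rw [sum_range_succ, ih (by omega)]
    have e1 := bR_succ p y K (by omega)
    have e4 := bR_pascal p y K (by omega)
    have e2 : ((n.choose (K + 1) : ℕ) : R p) * ((K : R p) + 1) = ((n.choose K : ℕ) : R p) * ((n : R p) - K) := by
      have h := congrArg (Nat.cast : ℕ → R p) (Nat.choose_succ_right_eq n K)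
      rw [Nat.cast_mul, Nat.cast_mul, Nat.cast_sub (by omega)] at h
      push_cast at h
      exact h
    rw [e4, pow_succ (-1 : R p) K]
    push_cast
    set A := bR p y (K + 1)
    set B := bR p y K
    set s : R p := (-1) ^ K
    set c := ((n.choose K : ℕ) : R p)
    set c' := ((n.choose (K + 1) : ℕ) : R p)
    linear_combination (s * c') * e1 + (-s * B) * e2

theorem vrel (n : ℕ) (hn : n < p) (y : R p) :
    (y + 1) * G p n (y + 1) = (y + 1 - n) * G p n y + 2 * dG p n y := by
  have h := vrel_tele p n hn y n le_rfl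
  rw [sum_sub_distrib, sum_sub_distrib, ← mul_sum, ← mul_sum, ← mul_sum, sub_self, mul_zero, zero_mul] at h
  unfold G dG
  linear_combination h

theorem dT2_tele (x : R p) (K : ℕ) (hK : K + 1 ≤ p) :
    ∑ k ∈ range (K + 1), (2 * ((k : R p) * ((-1) ^ k * bR p (x + 1) k ^ 2)) -
      (x + 1) * ((-1) ^ k * bR p (x + 1) k ^ 2) + 2 * (x + 1) * ((-1) ^ k * bR p x k ^ 2)) =
    (x + 1) * ((-1) ^ K * bR p x K ^ 2) := by
  induction K with
  | zero =>
    rw [zero_add, sum_range_one, bR_zero, bR_zero]
    push_cast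
    ring
  | succ K ih =>
    rw [sum_range_succ, ih (by omega)]
    have e1 := bR_succ p x K (by omega)
    have e4 := bR_pascal p x K (by omega)
    rw [e4, pow_succ (-1 : R p) K]
    push_cast
    set A := bR p x (K + 1)
    set B := bR p x K
    set s : R p := (-1) ^ K
    linear_combination (-2 * s * (A + B)) * e1

theorem bR_last (x : R p) (hx : red p x ≠ -1) : bR p x (p - 1) ^ 2 = 0 := by
  have hp1 := hp.out.two_le
  have h5 : red p (bR p x (p - 1)) = red p 0 := by
    unfold bR
    rw [map_mul, map_prod, map_zero]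
    have h6 : (red p x).val < p := ZMod.val_lt _
    have h7 : ((red p x).val : ZMod p) = red p x := ZMod.natCast_zmod_val _
    have h8 : (red p x).val ≠ p - 1 := by
      intro h9
      apply hx
      rw [h9] at h7
      have h10 := congrArg (Nat.cast : ℕ → ZMod p) (show p - 1 + 1 = p by omega)
      rw [ZMod.natCast_self] at h10
      push_cast at h10
      linear_combination h10 - h7
    rw [prod_eq_zero (i := (red p x).val) (mem_range.2 (by omega)), zero_mul]
    rw [map_sub, red_nat, h7, sub_self]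
  obtain ⟨z, hz⟩ := red_eq_of p _ _ h5
  rw [zero_add] at hz
  rw [hz]
  linear_combination z ^ 2 * p_sq p

theorem dT2_eq (x : R p) (hx : red p x ≠ -1) :
    2 * dT2 p (x + 1) = (x + 1) * (T2 p (x + 1) - 2 * T2 p x) := by
  have hp1 := hp.out.two_le
  have h3 := dT2_tele p x (p - 1) (by omega)
  rw [show p - 1 + 1 = p by omega, bR_last p x hx, mul_zero, mul_zero, sum_add_distrib, sum_sub_distrib, ← mul_sum,
    ← mul_sum, ← mul_sum] at h3
  unfold dT2 T2
  linear_combination h3

theorem dpg (n : ℕ) (x y c : R p) (hn : n < p) (hx : (n : R p) = x + p * c) (hy : y = x - p * c) :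
    dG p n y = dT2 p x := by
  have hsub : range (n + 1) ⊆ range p := Finset.range_subset_range.mpr (by omega)
  unfold dG
  rw [Finset.sum_subset hsub (f := fun k : ℕ => (k : R p) * ((-1) ^ k * ((n.choose k : ℕ) : R p) * bR p y k))]
  · unfold dT2
    refine Finset.sum_congr rfl fun k hk => ?_
    rw [Finset.mem_range] at hk
    rw [Pool.Agent.Q153.E8.choose_bR p n k hk, hx, hy, mul_assoc ((-1) ^ k)]
    congr 2
    unfold bR
    have h1 : (∏ i ∈ range k, (x + p * c - (i : R p))) * (∏ i ∈ range k, (x - p * c - (i : R p))) =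
        (∏ i ∈ range k, (x - (i : R p))) ^ 2 := by
      rw [← Finset.prod_mul_distrib, ← Finset.prod_pow]
      refine Finset.prod_congr rfl fun i _ => ?_
      linear_combination (-c ^ 2) * p_sq p
    linear_combination ((((k.factorial : ℕ) : R p)⁻¹) ^ 2) * h1
  · intro k _ hk
    rw [Finset.mem_range, not_lt] at hk
    rw [Nat.choose_eq_zero_of_lt (by omega)]
    simp

omit hp in
theorem bR_sq1 (c : R p) (k : ℕ) : bR p (p * c + 1) (k + 2) ^ 2 = 0 := by
  unfold bR
  rw [prod_range_succ', prod_range_succ', mul_pow, mul_pow, mul_pow]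
  have h : ((p : R p) * c + 1 - ((0 + 1 : ℕ) : R p)) ^ 2 = 0 := by
    push_cast
    linear_combination c ^ 2 * p_sq p
  rw [h, mul_zero, zero_mul, zero_mul]

theorem t2_one (c : R p) : T2 p (p * c + 1) = -2 * (p * c) := by
  unfold T2
  obtain ⟨n, hn⟩ : ∃ n, p = n + 2 := ⟨p - 2, by have := hp.out.two_le; omega⟩
  have e : range p = range (n + 2) := by rw [← hn]
  rw [e, sum_range_succ', sum_range_succ', bR_zero]
  have h1 : ∑ k ∈ range n, (-1 : R p) ^ (k + 1 + 1) * bR p (p * c + 1) (k + 1 + 1) ^ 2 = 0 := by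
    apply sum_eq_zero
    intro k _
    rw [bR_sq1, mul_zero]
  rw [h1]
  have h2 : bR p (p * c + 1) (0 + 1) = p * c + 1 := by
    have h3 := bR_succ p (p * c + 1) 0 (by have := hp.out.two_le; omega)
    rw [bR_zero] at h3
    push_cast at h3
    linear_combination h3
  rw [h2]
  linear_combination -c ^ 2 * p_sq p

theorem unit4 (hp2 : p ≠ 2) (l : ℕ) (hl : 2 * l + 2 < p) :
    IsUnit (4 * (((l + 1 : ℕ) : R p) * (((2 * (l + 1)).choose (l + 1) : ℕ) : R p))) := by
  apply isUnit_of_red
  rw [map_mul, map_mul, map_ofNat, red_nat, red_nat]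
  have h4 : (4 : ZMod p) ≠ 0 := by
    have := cast_ne p 2 (by norm_num) (lt_of_le_of_ne hp.out.two_le (Ne.symm hp2))
    push_cast at this
    have h22 : (4 : ZMod p) = 2 * 2 := by norm_num
    rw [h22]
    exact mul_ne_zero this this
  refine mul_ne_zero h4 (mul_ne_zero (cast_ne p (l + 1) (by omega) (by omega)) ?_)
  rw [Ne, ZMod.natCast_eq_zero_iff]
  intro hd
  have h1 : p ∣ (2 * (l + 1)).factorial := by
    rw [← Nat.choose_mul_factorial_mul_factorial (show l + 1 ≤ 2 * (l + 1) by omega)]
    exact Dvd.dvd.mul_right (Dvd.dvd.mul_right hd _) _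
  rw [hp.out.dvd_factorial] at h1
  omega

/-- the odd closed form -/
theorem t2_odd (hp2 : p ≠ 2) (c : R p) (l : ℕ) (hl : 2 * l + 2 < p) :
    4 * (((l + 1 : ℕ) : R p) * (((2 * (l + 1)).choose (l + 1) : ℕ) : R p) * T2 p (p * c + 2 * l + 1)) =
      p * c * (-16) ^ (l + 1) := by
  induction l with
  | zero =>
    have e0 : (p : R p) * c + 2 * ((0 : ℕ) : R p) + 1 = p * c + 1 := by
      push_cast
      ring
    have e1 : (((2 * (0 + 1)).choose (0 + 1) : ℕ) : R p) = 2 := by norm_num
    rw [e0, t2_one p, e1]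
    push_cast
    ring
  | succ l ih =>
    have ih := ih (by omega)
    have n1 : ((2 : ZMod p) * l + 3) ≠ 0 := by
      have := cast_ne p (2 * l + 3) (by omega) (by omega)
      push_cast at this
      exact this
    have n2 : ((2 : ZMod p) * l + 2) ≠ 0 := by
      have := cast_ne p (2 * l + 2) (by omega) (by omega)
      push_cast at this
      exact this
    have rx : red p ((p : R p) * c + 2 * (l : R p) + 1) = 2 * l + 1 := by
      rw [map_add, map_add, map_mul, map_mul, red_nat, red_nat, CharP.cast_eq_zero, zero_mul, zero_add,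
        map_ofNat, map_one]
    have hr := Pool.Agent.Q164.E8.rt p ((p : R p) * c + 2 * (l : R p) + 1) hp2 (by
      rw [rx]
      intro h1
      apply n2
      linear_combination h1) (by
      rw [rx]
      intro h1
      apply n1
      linear_combination h1)
    have ex : (p : R p) * c + 2 * ((l + 1 : ℕ) : R p) + 1 = p * c + 2 * (l : R p) + 1 + 2 := by
      push_cast
      ring
    have hc : ((l : R p) + 2) * (((2 * (l + 2)).choose (l + 2) : ℕ) : R p) =
        2 * (2 * (l : R p) + 3) * (((2 * (l + 1)).choose (l + 1) : ℕ) : R p) := by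
      have h1 := Nat.succ_mul_centralBinom_succ (l + 1)
      unfold Nat.centralBinom at h1
      have h2 := congrArg (Nat.cast : ℕ → R p) h1
      push_cast at h2 ⊢
      linear_combination h2
    have u4 := unit4 p hp2 l (by omega)
    have hpT : (p : R p) * T2 p (p * c + 2 * l + 1) = 0 := by
      apply u4.mul_left_cancel
      rw [mul_zero]
      linear_combination (p : R p) * ih + c * (-16) ^ (l + 1) * p_sq p
    rw [show 2 * (l + 1 + 1) = 2 * (l + 2) by ring, show l + 1 + 1 = l + 2 by ring, ex]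
    set X := T2 p (p * c + 2 * l + 1)
    set Y := T2 p (p * c + 2 * l + 1 + 2)
    -- `p Y = 0`
    have hpY : (p : R p) * Y = 0 := by
      have u3 : IsUnit ((p : R p) * c + 2 * (l : R p) + 1 + 2) := by
        apply isUnit_of_red
        rw [map_add, rx, map_ofNat]
        intro h1
        apply n1
        linear_combination h1
      apply u3.mul_left_cancel
      rw [mul_zero]
      linear_combination (p : R p) * hr - 4 * (p * c + 2 * l + 1 + 1) * hpT
    rw [pow_succ (-16 : R p) (l + 1)]
    push_cast at ih ⊢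
    linear_combination (-16) * ih + 4 * Y * hc +
      8 * (((2 * (l + 1)).choose (l + 1) : ℕ) : R p) * (hr - c * hpY - 4 * c * hpT)

end Pool.Agent.K6.H87.E8
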